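import Mathlib

/-!
# Alexander–Spanier cochains

`Ch M k n` is the space of all functions of `n + 1` points of `M` with values in `k`, `LZ M k n` the subspace of the functions
which vanish near the diagonal. The cohomology of `Ch / LZ` is the Alexander–Spanier cohomology of `M` with coefficients `k`.
-/

set_option autoImplicit false

open Set Topology Filter Module

namespace Pool.Agent.W15

/-- functions of `n + 1` points -/
abbrev Ch (M k : Type*) (n : ℕ) : Type _ := (Fin (n + 1) → M) → k

section

variable (M k : Type*) [CommRing k]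

/-- the coboundary -/
def dl (n : ℕ) : Ch M k n →ₗ[k] Ch M k (n + 1) where
  toFun a y := ∑ i : Fin (n + 2), (-1 : k) ^ (i : ℕ) * a fun j => y (i.succAbove j)
  map_add' a b := by
    funext y
    simp only [Pi.add_apply, mul_add, Finset.sum_add_distrib]
  map_smul' c a := by
    funext y
    simp only [Pi.smul_apply, smul_eq_mul, RingHom.id_apply, Finset.mul_sum]
    exact Finset.sum_congr rfl fun i _ => by ring

variable {M k}

theorem dl_apply (n : ℕ) (a : Ch M k n) (y : Fin (n + 2) → M) :
    dl M k n a y = ∑ i : Fin (n + 2), (-1 : k) ^ (i : ℕ) * a fun j => y (i.succAbove j) := rfl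

theorem succAbove_comm {n : ℕ} {i j : Fin (n + 2)} (h : i ≤ j) (l : Fin (n + 1)) :
    j.succ.succAbove (i.succAbove l) = i.castSucc.succAbove (j.succAbove l) := by
  rw [Fin.le_def] at h
  simp only [Fin.succAbove, Fin.lt_def, Fin.ext_iff, Fin.val_castSucc, Fin.val_succ]
  split_ifs <;> simp_all <;> omega

theorem dl_dl (n : ℕ) (a : Ch M k n) : dl M k (n + 1) (dl M k n a) = 0 := by
  funext y
  rw [dl_apply, Pi.zero_apply]
  simp only [dl_apply, Finset.mul_sum]
  rw [← Finset.sum_product', ← Finset.sum_filter_add_sum_filter_not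
    (Finset.univ ×ˢ Finset.univ : Finset (Fin (n + 3) × Fin (n + 2))) (fun p => p.1 ≤ p.2.castSucc)]
  rw [add_eq_zero_iff_eq_neg, ← Finset.sum_neg_distrib]
  refine Finset.sum_bij' (fun p hp => (p.2.succ, p.1.castPred (by
      have h := (Finset.mem_filter.1 hp).2
      intro h2
      rw [h2, Fin.le_def] at h
      simp at h
      omega)))
    (fun p hp => (p.2.castSucc, p.1.pred (by
      have h := (Finset.mem_filter.1 hp).2
      intro h2
      rw [h2] at h
      exact h (Fin.zero_le _)))) ?_ ?_ ?_ ?_ ?_
  · rintro ⟨i, j⟩ hp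
    have h := (Finset.mem_filter.1 hp).2
    simp only [Finset.mem_filter, Finset.mem_product, Finset.mem_univ, true_and, not_le]
    rw [Fin.lt_def]
    rw [Fin.le_def] at h
    simp at h ⊢
    omega
  · rintro ⟨i, j⟩ hp
    have h := (Finset.mem_filter.1 hp).2
    simp only [Finset.mem_filter, Finset.mem_product, Finset.mem_univ, true_and, not_le] at h ⊢
    rw [Fin.lt_def] at h
    rw [Fin.le_def]
    simp at h ⊢
    omega
  · rintro ⟨i, j⟩ hp
    simp
  · rintro ⟨i, j⟩ hp
    simp
  · rintro ⟨i, j⟩ hp
    have h := (Finset.mem_filter.1 hp).2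
    obtain ⟨i', rfl⟩ : ∃ i' : Fin (n + 2), i = i'.castSucc := by
      have h1 : i ≠ Fin.last _ := by
        intro h2
        rw [h2, Fin.le_def] at h
        simp at h
        omega
      exact ⟨i.castPred h1, (Fin.castSucc_castPred i h1).symm⟩
    simp only [Fin.castPred_castSucc, Fin.val_succ, Fin.val_castSucc]
    have h3 : (fun l : Fin (n + 1) => y (i'.castSucc.succAbove (j.succAbove l))) =
        fun l : Fin (n + 1) => y (j.succ.succAbove (i'.succAbove l)) := by
      funext l
      rw [succAbove_comm]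
      rw [Fin.le_def] at h ⊢
      simpa using h
    rw [h3]
    ring

end

section

variable (M k : Type*) [TopologicalSpace M] [CommRing k]

/-- the functions which vanish near the diagonal -/
def LZ (n : ℕ) : Submodule k (Ch M k n) where
  carrier := {a | ∀ x : M, ∀ᶠ y in 𝓝 (fun _ : Fin (n + 1) => x), a y = 0}
  add_mem' {a b} ha hb x := by
    filter_upwards [ha x, hb x] with y h1 h2
    rw [Pi.add_apply, h1, h2, add_zero]
  zero_mem' x := Eventually.of_forall fun _ => rfl
  smul_mem' c a ha x := by
    filter_upwards [ha x] with y h1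
    rw [Pi.smul_apply, h1, smul_zero]

variable {M k}

theorem mem_LZ {n : ℕ} {a : Ch M k n} : a ∈ LZ M k n ↔
    ∀ x : M, ∀ᶠ y in 𝓝 (fun _ : Fin (n + 1) => x), a y = 0 := Iff.rfl

theorem tendsto_face (n : ℕ) (i : Fin (n + 2)) (x : M) :
    Tendsto (fun (y : Fin (n + 2) → M) (j : Fin (n + 1)) => y (i.succAbove j))
      (𝓝 fun _ => x) (𝓝 fun _ => x) := by
  have h : Continuous fun (y : Fin (n + 2) → M) (j : Fin (n + 1)) => y (i.succAbove j) := by
    fun_prop
  exact h.tendsto _

theorem tendsto_pull (n : ℕ) {N : Type*} [TopologicalSpace N] {g : M → N} (hg : Continuous g) (x : M) :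
    Tendsto (fun (y : Fin (n + 1) → M) (j : Fin (n + 1)) => g (y j))
      (𝓝 fun _ => x) (𝓝 fun _ => g x) := by
  have h : Continuous fun (y : Fin (n + 1) → M) (j : Fin (n + 1)) => g (y j) := by
    fun_prop
  exact h.tendsto _

/-- vanishing of a function near the diagonal point `x` -/
def VN {n : ℕ} (a : Ch M k n) (x : M) : Prop := ∀ᶠ y in 𝓝 (fun _ : Fin (n + 1) => x), a y = 0

theorem VN.dl {n : ℕ} {a : Ch M k n} {x : M} (h : VN a x) : VN (dl M k n a) x := by
  have h1 : ∀ i : Fin (n + 2), ∀ᶠ y : Fin (n + 2) → M in 𝓝 (fun _ => x),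
      a (fun j => y (i.succAbove j)) = 0 := fun i => (tendsto_face n i x).eventually h
  filter_upwards [eventually_all.2 h1] with y hy
  rw [dl_apply]
  exact Finset.sum_eq_zero fun i _ => by rw [hy i, mul_zero]

theorem dl_mem_LZ {n : ℕ} {a : Ch M k n} (h : a ∈ LZ M k n) : dl M k n a ∈ LZ M k (n + 1) :=
  fun x => VN.dl (h x)

end

section pull

variable {M N k : Type*} [CommRing k]

/-- the pull-back of functions -/
def pull (k : Type*) [CommRing k] (g : M → N) (n : ℕ) : Ch N k n →ₗ[k] Ch M k n where
  toFun a y := a fun j => g (y j)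
  map_add' _ _ := rfl
  map_smul' _ _ := rfl

theorem pull_apply (g : M → N) (n : ℕ) (a : Ch N k n) (y : Fin (n + 1) → M) :
    pull k g n a y = a fun j => g (y j) := rfl

theorem dl_pull (g : M → N) (n : ℕ) (a : Ch N k n) :
    dl M k n (pull k g n a) = pull k g (n + 1) (dl N k n a) := rfl

theorem VN.pull [TopologicalSpace M] [TopologicalSpace N] {g : M → N} (hg : Continuous g) {n : ℕ}
    {a : Ch N k n} {x : M} (h : VN a (g x)) : VN (pull k g n a) x :=
  (tendsto_pull n hg x).eventually h

theorem pull_mem_LZ [TopologicalSpace M] [TopologicalSpace N] {g : M → N} (hg : Continuous g) {n : ℕ}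
    {a : Ch N k n} (h : a ∈ LZ N k n) : pull k g n a ∈ LZ M k n := fun x => VN.pull hg (h (g x))

end pull

end Pool.Agent.W15
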