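import Mathlib

set_option autoImplicit false

open Module Polynomial

namespace Pool.Agent.W15

theorem natDegree_minpoly {k : Type*} [Field k] [Algebra (ZMod 2) k] [Module.Finite (ZMod 2) k]
    {η : k} {d : ℕ} (hd : Odd d) (hη : IsPrimitiveRoot η d) :
    (minpoly (ZMod 2) η).natDegree = orderOf (2 : ZMod d) := by
  have hc : Nat.Coprime 2 d := hd.coprime_two_left
  have hint : IsIntegral (ZMod 2) η := Algebra.IsIntegral.isIntegral η
  have h1 : minpoly (ZMod 2) η ∣ cyclotomic d (ZMod 2) := by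
    apply minpoly.dvd
    rw [aeval_def, eval₂_eq_eval_map, map_cyclotomic, ← IsRoot.def]
    have : NeZero (d : k) := ⟨fun h => by
      have h2 : CharP k 2 := charP_of_injective_algebraMap (algebraMap (ZMod 2) k).injective 2
      have h3 := (CharP.cast_eq_zero_iff k 2 d).1 h
      exact (Nat.not_even_iff_odd.2 hd) (even_iff_two_dvd.2 h3)⟩
    exact isRoot_cyclotomic_iff.2 hη
  have h2 := natDegree_of_dvd_cyclotomic_of_irreducible (K := ZMod 2) (p := 2) (f := 1) (n := d)
    (by simp [ZMod.card]) hc h1 (minpoly.irreducible hint)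
  rw [h2, ← orderOf_units, ZMod.coe_unitOfCoprime]
  norm_num

theorem exists_arith (N t : ℕ) (hN : Odd N) (ht : 0 < t) :
    ∃ (k : Type) (_ : Field k) (_ : Algebra (ZMod 2) k) (_ : Module.Finite (ZMod 2) k) (ζ : k)
      (v : Fin t × ZMod N → k), IsPrimitiveRoot ζ N ∧ (∀ a i, v (a, i + 1) = ζ * v (a, i)) ∧
      (∀ s, (minpoly (ZMod 2) (ζ⁻¹ ^ s)).natDegree = orderOf (2 : ZMod (N / N.gcd s))) ∧
      ∃ Q : Submodule (ZMod 2) (Fin t × ZMod N → ZMod 2),
        finrank (ZMod 2) Q = t * orderOf (2 : ZMod N) ∧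
        ∀ w ∈ Q, ∃ μ : k →ₗ[ZMod 2] ZMod 2, w = fun i => μ (v i) := by
  have hc : Nat.Coprime 2 N := hN.coprime_two_left
  have hN0 : 0 < N := hN.pos
  have : NeZero N := ⟨hN0.ne'⟩
  obtain ⟨f, hf⟩ : ∃ f, f = orderOf (2 : ZMod N) := ⟨_, rfl⟩
  have h2u : (ZMod.unitOfCoprime 2 hc : ZMod N) = 2 := by
    rw [ZMod.coe_unitOfCoprime]; norm_num
  have hf0 : 0 < f := by
    rw [hf, ← h2u, orderOf_units]
    exact orderOf_pos _
  have hft : f * t ≠ 0 := (Nat.mul_pos hf0 ht).ne'
  -- the field
  let k := GaloisField 2 (f * t)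
  have hfin : finrank (ZMod 2) k = f * t := GaloisField.finrank 2 hft
  have hmf : Module.Finite (ZMod 2) k := Module.finite_of_finrank_pos (by rw [hfin]; omega)
  have hkf : Finite k := Module.finite_of_finite (ZMod 2)
  -- a primitive root
  have hroot : ∃ ζ : k, IsPrimitiveRoot ζ N := by
    classical
    have := Fintype.ofFinite k
    have hcard : Fintype.card kˣ = 2 ^ (f * t) - 1 := by
      rw [Fintype.card_units, ← Nat.card_eq_fintype_card, GaloisField.card 2 _ hft]
    have hdvd : N ∣ Fintype.card kˣ := by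
      rw [hcard, ← ZMod.natCast_eq_zero_iff, Nat.cast_sub (Nat.one_le_two_pow), Nat.cast_pow, pow_mul]
      have h3 : ((2 : ℕ) : ZMod N) ^ f = 1 := by
        rw [hf]
        push_cast
        exact pow_orderOf_eq_one _
      rw [h3]
      simp
    have h3 := IsCyclic.card_orderOf_eq_totient (α := kˣ) hdvd
    have h4 : 0 < (Finset.univ.filter fun a : kˣ => orderOf a = N).card := by
      rw [h3]
      exact Nat.totient_pos.2 hN0
    obtain ⟨u, hu⟩ := Finset.card_pos.1 h4
    have hu' := (Finset.mem_filter.1 hu).2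
    refine ⟨u, ?_⟩
    rw [← hu']
    exact (IsPrimitiveRoot.orderOf u).map_of_injective (f := Units.coeHom k) Units.val_injective
  obtain ⟨ζ, hζ⟩ := hroot
  have hdeg : (minpoly (ZMod 2) ζ).natDegree = f := by rw [natDegree_minpoly hN hζ, hf]
  have hint : IsIntegral (ZMod 2) ζ := Algebra.IsIntegral.isIntegral ζ
  let K0 := IntermediateField.adjoin (ZMod 2) {ζ}
  have hK0 : finrank (ZMod 2) K0 = f := by
    rw [IntermediateField.adjoin.finrank hint, hdeg]
  have hK1 : finrank K0 k = t := by
    have h3 := finrank_mul_finrank (ZMod 2) K0 k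
    rw [hK0, hfin] at h3
    exact Nat.eq_of_mul_eq_mul_left hf0 h3
  let α : Basis (Fin t) K0 k := finBasisOfFinrankEq K0 k hK1
  let v : Fin t × ZMod N → k := fun p => ζ ^ p.2.val * α p.1
  have hv : ∀ a i, v (a, i + 1) = ζ * v (a, i) := by
    intro a i
    change ζ ^ (i + 1).val * α a = ζ * (ζ ^ i.val * α a)
    have h3 : ζ ^ (i + 1).val = ζ ^ (i.val + 1) := by
      rw [ZMod.val_add, ← pow_mod_orderOf ζ (i.val + 1), ← hζ.eq_orderOf]
      rcases Nat.lt_or_ge 1 N with h | h
      · have : Fact (1 < N) := ⟨h⟩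
        rw [ZMod.val_one]
      · have : N = 1 := by omega
        subst this
        simp [Nat.mod_one]
    rw [h3, pow_succ]
    ring
  have hspan : Submodule.span (ZMod 2) (Set.range v) = ⊤ := by
    -- closed under multiplication by `ζ`
    have h3 : ∀ x ∈ Submodule.span (ZMod 2) (Set.range v),
        ζ * x ∈ Submodule.span (ZMod 2) (Set.range v) := by
      intro x hx
      induction hx using Submodule.span_induction with
      | mem x hx =>
        obtain ⟨⟨a, i⟩, rfl⟩ := hx
        rw [← hv]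
        exact Submodule.subset_span ⟨_, rfl⟩
      | zero => rw [mul_zero]; exact Submodule.zero_mem _
      | add x y _ _ h1 h2 => rw [mul_add]; exact Submodule.add_mem _ h1 h2
      | smul c x _ h1 => rw [mul_smul_comm]; exact Submodule.smul_mem _ _ h1
    have h4 : ∀ c ∈ Algebra.adjoin (ZMod 2) {ζ}, ∀ x ∈ Submodule.span (ZMod 2) (Set.range v),
        c * x ∈ Submodule.span (ZMod 2) (Set.range v) := by
      intro c hc
      induction hc using Algebra.adjoin_induction with
      | mem c hc =>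
        rw [Set.mem_singleton_iff] at hc
        rw [hc]
        exact h3
      | algebraMap r =>
        intro x hx
        rw [← Algebra.smul_def]
        exact Submodule.smul_mem _ _ hx
      | add c c' _ _ h1 h2 =>
        intro x hx
        rw [add_mul]
        exact Submodule.add_mem _ (h1 x hx) (h2 x hx)
      | mul c c' _ _ h1 h2 =>
        intro x hx
        rw [mul_assoc]
        exact h1 _ (h2 x hx)
    rw [eq_top_iff]
    intro x _
    rw [← α.sum_repr x]
    refine Submodule.sum_mem _ fun a _ => ?_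
    have h5 : (α.repr x a : k) ∈ Algebra.adjoin (ZMod 2) {ζ} := by
      rw [← IntermediateField.adjoin_simple_toSubalgebra_of_isAlgebraic hint.isAlgebraic]
      exact (α.repr x a).2
    have h6 : α.repr x a • α a = (α.repr x a : k) * α a := rfl
    rw [h6]
    apply h4 _ h5
    refine Submodule.subset_span ⟨(a, 0), ?_⟩
    change ζ ^ (0 : ZMod N).val * α a = α a
    rw [ZMod.val_zero, pow_zero, one_mul]
  refine ⟨k, inferInstance, inferInstance, hmf, ζ, v, hζ, hv, ?_, ?_⟩
  · intro s
    have h3 : IsPrimitiveRoot (ζ⁻¹ ^ s) (N / N.gcd s) := by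
      have h4 := IsPrimitiveRoot.orderOf (ζ⁻¹ ^ s)
      have h5 : orderOf (ζ⁻¹ ^ s) = N / N.gcd s := by
        have h6 : orderOf ζ⁻¹ = N := hζ.inv.eq_orderOf.symm
        have h7 : IsOfFinOrder ζ⁻¹ := orderOf_pos_iff.1 (by rw [h6]; exact hN0)
        rw [h7.orderOf_pow, h6]
      rwa [h5] at h4
    have hodd : Odd (N / N.gcd s) := Odd.of_dvd_nat hN (Nat.div_dvd_of_dvd (Nat.gcd_dvd_left N s))
    exact natDegree_minpoly hodd h3
  · let Φ : (k →ₗ[ZMod 2] ZMod 2) →ₗ[ZMod 2] (Fin t × ZMod N → ZMod 2) :=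
      LinearMap.pi fun i => LinearMap.applyₗ (v i)
    have hΦ : Function.Injective Φ := by
      rw [injective_iff_map_eq_zero]
      intro μ hμ
      apply LinearMap.ext_on_range hspan
      intro i
      exact congrFun hμ i
    refine ⟨LinearMap.range Φ, ?_, ?_⟩
    · rw [LinearMap.finrank_range_of_inj hΦ, finrank_linearMap, finrank_self, mul_one, hfin, hf,
        mul_comm]
    · rintro w ⟨μ, rfl⟩
      exact ⟨μ, rfl⟩

end Pool.Agent.W15
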