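import Pool.Agent.Helper43.W15.AS

/-!
# Alexander–Spanier cohomology, polynomials in the endomorphism induced by a continuous map
-/

set_option autoImplicit false
set_option linter.unusedSectionVars false

open Set Topology Filter Module Polynomial

namespace Pool.Agent.W15

section

variable (M k : Type*) [TopologicalSpace M] [CommRing k]

/-- the cocycles -/
def Zc (n : ℕ) : Submodule k (Ch M k n) := (LZ M k (n + 1)).comap (dl M k n)

/-- the coboundaries -/
def Bc : (n : ℕ) → Submodule k (Ch M k n)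
  | 0 => LZ M k 0
  | n + 1 => LinearMap.range (dl M k n) ⊔ LZ M k (n + 1)

/-- Alexander–Spanier cohomology -/
abbrev HH (n : ℕ) : Type _ := Zc M k n ⧸ (Bc M k n).comap (Zc M k n).subtype

variable {M k}

theorem mem_Zc {n : ℕ} {a : Ch M k n} : a ∈ Zc M k n ↔ dl M k n a ∈ LZ M k (n + 1) := Iff.rfl

theorem LZ_le_Bc (n : ℕ) : LZ M k n ≤ Bc M k n := by
  match n with
  | 0 => exact le_rfl
  | n + 1 => exact le_sup_right

theorem pull_mem_Zc {c : M → M} (hc : Continuous c) {n : ℕ} {a : Ch M k n} (h : a ∈ Zc M k n) :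
    pull k c n a ∈ Zc M k n := by
  rw [mem_Zc, dl_pull]
  exact pull_mem_LZ hc h

theorem pull_mem_Bc {c : M → M} (hc : Continuous c) {n : ℕ} {a : Ch M k n} (h : a ∈ Bc M k n) :
    pull k c n a ∈ Bc M k n := by
  match n, a, h with
  | 0, a, h => exact pull_mem_LZ (k := k) hc (n := 0) h
  | n + 1, a, h =>
    obtain ⟨b, ⟨g, rfl⟩, l, hl, rfl⟩ := Submodule.mem_sup.1 h
    rw [map_add]
    exact Submodule.add_mem _ (le_sup_left (a := LinearMap.range (dl M k n)) ⟨pull k c n g, dl_pull c n g⟩)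
      (le_sup_right (a := LinearMap.range (dl M k n)) (pull_mem_LZ hc hl))

end

section aeval

variable {V W : Type*} [AddCommGroup V] [AddCommGroup W] [Module (ZMod 2) V] [Module (ZMod 2) W]

theorem aeval_comm (f : Module.End (ZMod 2) V) (g : Module.End (ZMod 2) W) (T : V →ₗ[ZMod 2] W)
    (h : ∀ x, T (f x) = g (T x)) (P : (ZMod 2)[X]) (x : V) :
    T (aeval f P x) = aeval g P (T x) := by
  induction P using Polynomial.induction_on' with
  | add p q hp hq => simp only [map_add, LinearMap.add_apply, hp, hq]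
  | monomial n a =>
    have h1 : ∀ n : ℕ, T ((f ^ n) x) = (g ^ n) (T x) := by
      intro n
      induction n with
      | zero => rfl
      | succ n ih => rw [pow_succ', pow_succ', Module.End.mul_apply, Module.End.mul_apply, h, ih]
    simp only [aeval_monomial, Module.End.mul_apply, Module.algebraMap_end_apply, map_smul, h1]

theorem aeval_mem (f : Module.End (ZMod 2) V) (S : Submodule (ZMod 2) V) (h : ∀ x ∈ S, f x ∈ S)
    (P : (ZMod 2)[X]) (x : V) (hx : x ∈ S) : aeval f P x ∈ S := by
  induction P using Polynomial.induction_on' with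
  | add p q hp hq =>
    rw [map_add, LinearMap.add_apply]
    exact S.add_mem hp hq
  | monomial n a =>
    have h1 : ∀ n : ℕ, (f ^ n) x ∈ S := by
      intro n
      induction n with
      | zero => exact hx
      | succ n ih => rw [pow_succ', Module.End.mul_apply]; exact h _ ih
    simp only [aeval_monomial, Module.End.mul_apply, Module.algebraMap_end_apply]
    exact S.smul_mem _ (h1 n)

end aeval

section coh

variable {M : Type*} [TopologicalSpace M]

/-- the endomorphism of the cocycles -/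
def cZ {c : M → M} (hc : Continuous c) (n : ℕ) : Module.End (ZMod 2) (Zc M (ZMod 2) n) :=
  (pull (ZMod 2) c n).restrict (fun _ h => pull_mem_Zc hc h)

/-- the endomorphism of the cohomology -/
def cH {c : M → M} (hc : Continuous c) (n : ℕ) : Module.End (ZMod 2) (HH M (ZMod 2) n) :=
  Submodule.mapQ _ _ (cZ hc n) (fun a ha => pull_mem_Bc (n := n) (a := (a : Ch M (ZMod 2) n)) hc ha)

theorem aeval_mem_Bc {c : M → M} (hc : Continuous c) (n : ℕ) (P : (ZMod 2)[X])
    (hP : aeval (cH hc n) P = 0) (z : Ch M (ZMod 2) n) (hz : z ∈ Zc M (ZMod 2) n) :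
    aeval (pull (ZMod 2) c n : Module.End (ZMod 2) (Ch M (ZMod 2) n)) P z ∈ Bc M (ZMod 2) n := by
  have h1 := aeval_comm (cZ hc n) (cH hc n) (Submodule.mkQ _) (fun _ => rfl) P ⟨z, hz⟩
  rw [hP, LinearMap.zero_apply, Submodule.mkQ_apply, Submodule.Quotient.mk_eq_zero] at h1
  have h2 := aeval_comm (cZ hc n) (pull (ZMod 2) c n : Module.End (ZMod 2) (Ch M (ZMod 2) n))
    (Zc M (ZMod 2) n).subtype (fun _ => rfl) P ⟨z, hz⟩
  change _ = aeval (pull (ZMod 2) c n : Module.End (ZMod 2) (Ch M (ZMod 2) n)) P z at h2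
  rw [← h2]
  exact h1

variable {k : Type*} [Field k] [Algebra (ZMod 2) k]

theorem dl_apply2 (n : ℕ) (a : Ch M k n) (y : Fin (n + 2) → M) :
    dl M k n a y = ∑ i : Fin (n + 2), a fun j => y (i.succAbove j) := by
  have : CharP k 2 := charP_of_injective_algebraMap (algebraMap (ZMod 2) k).injective 2
  rw [dl_apply]
  refine Finset.sum_congr rfl fun i _ => ?_
  rw [CharTwo.neg_eq, one_pow, one_mul]

/-- change of coefficients -/
def coef {R S : Type*} [AddCommGroup R] [AddCommGroup S] [Module (ZMod 2) R] [Module (ZMod 2) S]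
    (lam : R →ₗ[ZMod 2] S) (M : Type*) (n : ℕ) : Ch M R n →ₗ[ZMod 2] Ch M S n :=
  lam.compLeft _

theorem coef_apply {R S : Type*} [AddCommGroup R] [AddCommGroup S] [Module (ZMod 2) R]
    [Module (ZMod 2) S] (lam : R →ₗ[ZMod 2] S) (n : ℕ) (a : Ch M R n) (y : Fin (n + 1) → M) :
    coef lam M n a y = lam (a y) := rfl

variable {R S : Type*} [Field R] [Algebra (ZMod 2) R] [Field S] [Algebra (ZMod 2) S]

theorem coef_dl (lam : R →ₗ[ZMod 2] S) (n : ℕ) (a : Ch M R n) :
    coef lam M (n + 1) (dl M R n a) = dl M S n (coef lam M n a) := by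
  funext y
  rw [coef_apply, dl_apply2, dl_apply2, map_sum]
  rfl

theorem coef_LZ (lam : R →ₗ[ZMod 2] S) {n : ℕ} {a : Ch M R n} (h : a ∈ LZ M R n) :
    coef lam M n a ∈ LZ M S n := by
  intro x
  filter_upwards [h x] with y hy
  rw [coef_apply, hy, map_zero]

theorem coef_Zc (lam : R →ₗ[ZMod 2] S) {n : ℕ} {a : Ch M R n} (h : a ∈ Zc M R n) :
    coef lam M n a ∈ Zc M S n := by
  rw [mem_Zc, ← coef_dl]
  exact coef_LZ lam h

theorem coef_Bc (lam : R →ₗ[ZMod 2] S) {n : ℕ} {a : Ch M R n} (h : a ∈ Bc M R n) :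
    coef lam M n a ∈ Bc M S n := by
  match n, a, h with
  | 0, a, h => exact coef_LZ (M := M) lam (n := 0) h
  | n + 1, a, h =>
    obtain ⟨b, ⟨g, rfl⟩, l, hl, rfl⟩ := Submodule.mem_sup.1 h
    rw [map_add]
    exact Submodule.add_mem _ (le_sup_left (a := LinearMap.range (dl M S n)) ⟨coef lam M n g, (coef_dl lam n g).symm⟩)
      (le_sup_right (a := LinearMap.range (dl M S n)) (coef_LZ lam hl))

/-- the pull-back, linear over `F_2` -/
def pullz (k : Type*) [Field k] [Algebra (ZMod 2) k] (c : M → M) (n : ℕ) :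
    Module.End (ZMod 2) (Ch M k n) := (pull k c n).restrictScalars (ZMod 2)

/-- extension of the coefficients from `F_2` to `k` -/
theorem aeval_mem_Bc' [Module.Finite (ZMod 2) k] {c : M → M} (hc : Continuous c) (n : ℕ)
    (P : (ZMod 2)[X]) (hP : aeval (cH hc n) P = 0) (z : Ch M k n) (hz : z ∈ Zc M k n) :
    aeval (pullz k c n) P z ∈ Bc M k n := by
  classical
  let b := Module.finBasis (ZMod 2) k
  let J : Fin (finrank (ZMod 2) k) → (ZMod 2 →ₗ[ZMod 2] k) := fun i => LinearMap.toSpanSingleton _ _ (b i)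
  have h1 : z = ∑ i, coef (J i) M n (coef (b.coord i) M n z) := by
    funext y
    rw [Finset.sum_apply]
    simp only [coef_apply, J, LinearMap.toSpanSingleton_apply]
    exact (b.sum_repr (z y)).symm
  rw [h1, map_sum]
  refine Submodule.sum_mem _ fun i _ => ?_
  have h2 := aeval_comm (pull (ZMod 2) c n : Module.End (ZMod 2) (Ch M (ZMod 2) n)) (pullz k c n)
    (coef (J i) M n) (fun _ => rfl) P (coef (b.coord i) M n z)
  rw [← h2]
  exact coef_Bc _ (aeval_mem_Bc hc n P hP _ (coef_Zc _ hz))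

end coh

end Pool.Agent.W15
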