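import Mathlib

set_option autoImplicit false

open Set Topology Filter Module
open scoped Manifold ContDiff

namespace Pool.Agent.W15

/-- an action of `F_2 ^ I` by homeomorphisms -/
structure Act (I : Type*) (M : Type*) [TopologicalSpace M] where
  toFun : (I → ZMod 2) → M → M
  zero : ∀ x, toFun 0 x = x
  add : ∀ w w' x, toFun (w + w') x = toFun w (toFun w' x)
  cont : ∀ w, Continuous (toFun w)

variable {I : Type*} [Fintype I] [DecidableEq I] {k : Type*} [Field k] [Algebra (ZMod 2) k]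
  {M : Type*} [TopologicalSpace M]

/-- good data on an invariant open set `V` -/
structure Datum (A : Act I M) (v : I → k) (V : Set M) (φ : M → ZMod 2)
    (κ : M → (I → ZMod 2) →ₗ[ZMod 2] ZMod 2) : Prop where
  isOpen : IsOpen V
  inv : ∀ w, ∀ x ∈ V, A.toFun w x ∈ V
  phi_loc : ∀ x ∈ V, ∀ᶠ y in 𝓝 x, φ y = φ x
  kap_loc : ∀ x ∈ V, ∀ᶠ y in 𝓝 x, κ y = κ x
  phi_act : ∀ w, ∀ x ∈ V, φ (A.toFun w x) = φ x + κ x w
  kap_act : ∀ w, ∀ x ∈ V, κ (A.toFun w x) = κ x
  ne : ∀ x ∈ V, ∑ i, κ x (Pi.single i 1) • v i ≠ 0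

omit [Fintype I] [DecidableEq I] in
theorem two_add (w : I → ZMod 2) : w + w = 0 := by
  funext i
  exact CharTwo.add_self_eq_zero _

theorem exists_local [T2Space M] (A : Act I M) (v : I → k) (x : M)
    (hx : ∃ μ : k →ₗ[ZMod 2] ZMod 2, A.toFun (fun i => μ (v i)) x ≠ x) :
    ∃ (V : Set M) (φ : M → ZMod 2) (κ : (I → ZMod 2) →ₗ[ZMod 2] ZMod 2), x ∈ V ∧
      Datum A v V φ (fun _ => κ) := by
  obtain ⟨μ, hμ⟩ := hx
  -- the stabiliser
  let Q : Submodule (ZMod 2) (I → ZMod 2) :=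
    { carrier := {w | A.toFun w x = x}
      add_mem' := fun {w w'} h h' => by
        change A.toFun (w + w') x = x
        rw [A.add, (h' : A.toFun w' x = x), (h : A.toFun w x = x)]
      zero_mem' := A.zero x
      smul_mem' := fun c w h => by
        have hc : c = 0 ∨ c = 1 := by
          revert c
          decide
        rcases hc with rfl | rfl
        · change A.toFun ((0 : ZMod 2) • w) x = x
          rw [zero_smul]
          exact A.zero x
        · change A.toFun ((1 : ZMod 2) • w) x = x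
          rw [one_smul]
          exact h }
  have hQ : (fun i => μ (v i)) ∉ Q := hμ
  obtain ⟨κ, hκ1, hκ2⟩ := Submodule.exists_le_ker_of_notMem hQ
  have hne : ∑ i, κ (Pi.single i 1) • v i ≠ 0 := by
    intro h0
    apply hκ1
    have h1 : κ (fun i => μ (v i)) = μ (∑ i, κ (Pi.single i 1) • v i) := by
      have h2 : (fun i => μ (v i)) = ∑ i, μ (v i) • (Pi.single i 1 : I → ZMod 2) := by
        funext j
        simp [Finset.sum_apply, Pi.single_apply]
      rw [h2, map_sum, map_sum]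
      apply Finset.sum_congr rfl
      intro i _
      rw [map_smul, map_smul, smul_eq_mul, smul_eq_mul, mul_comm]
    rw [h1, h0, map_zero]
  have hk : ∀ w, κ w ≠ 0 → A.toFun w x ≠ x := fun w hw h => hw (hκ2 (show w ∈ Q from h))
  -- a small neighbourhood
  have hO : ∃ O : Set M, IsOpen O ∧ x ∈ O ∧ ∀ w, κ w ≠ 0 → ∀ y ∈ O, A.toFun w y ∉ O := by
    have h1 : ∀ w, ∃ O : Set M, IsOpen O ∧ x ∈ O ∧ (κ w ≠ 0 → ∀ y ∈ O, A.toFun w y ∉ O) := by
      intro w
      by_cases hw : κ w = 0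
      · exact ⟨univ, isOpen_univ, trivial, fun h => absurd hw h⟩
      · obtain ⟨U, U', hU, hU', hxU, hxU', hd⟩ := t2_separation (hk w hw).symm
        refine ⟨U ∩ A.toFun w ⁻¹' U', hU.inter (hU'.preimage (A.cont w)), ⟨hxU, hxU'⟩, ?_⟩
        intro _ y hy hy'
        exact Set.disjoint_left.1 hd hy'.1 hy.2
    choose O hO1 hO2 hO3 using h1
    exact ⟨⋂ w, O w, isOpen_iInter_of_finite hO1, mem_iInter.2 hO2, fun w hw y hy hy' =>
      hO3 w hw y (mem_iInter.1 hy w) (mem_iInter.1 hy' w)⟩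
  obtain ⟨O, hO1, hO2, hO3⟩ := hO
  let P : ZMod 2 → Set M := fun b => {y | ∃ w, κ w = b ∧ A.toFun w y ∈ O}
  have hPo : ∀ b, IsOpen (P b) := by
    intro b
    have : P b = ⋃ w, ⋃ (_ : κ w = b), A.toFun w ⁻¹' O := by
      ext y
      simp [P]
    rw [this]
    exact isOpen_iUnion fun w => isOpen_iUnion fun _ => hO1.preimage (A.cont w)
  have hPd : ∀ b b' y, y ∈ P b → y ∈ P b' → b = b' := by
    rintro b b' y ⟨w, hw, hy⟩ ⟨w', hw', hy'⟩
    by_contra hbb
    have h1 : κ (w' + w) ≠ 0 := by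
      rw [map_add, hw, hw']
      intro h
      exact hbb (CharTwo.add_eq_zero.1 h).symm
    refine hO3 _ h1 _ hy ?_
    rw [← A.add, add_assoc, two_add, add_zero]
    exact hy'
  have hPa : ∀ b y u, y ∈ P b → A.toFun u y ∈ P (b + κ u) := by
    rintro b y u ⟨w, hw, hy⟩
    refine ⟨w + u, by rw [map_add, hw], ?_⟩
    rw [← A.add, add_assoc, two_add, add_zero]
    exact hy
  classical
  let φ : M → ZMod 2 := fun y => if y ∈ P 1 then 1 else 0
  have hφ : ∀ b y, y ∈ P b → φ y = b := by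
    intro b y hy
    by_cases h : y ∈ P 1
    · rw [hPd b 1 y hy h]
      exact if_pos h
    · have hb : b = 0 := by
        have h2 : b ≠ 1 := fun hb => h (hb ▸ hy)
        have h3 : ∀ b : ZMod 2, b ≠ 1 → b = 0 := by decide
        exact h3 b h2
      rw [hb]
      exact if_neg h
  refine ⟨⋃ b, P b, φ, κ, mem_iUnion.2 ⟨0, 0, map_zero κ, by rw [A.zero]; exact hO2⟩, ?_⟩
  refine ⟨isOpen_iUnion hPo, ?_, ?_, fun _ _ => Eventually.of_forall fun _ => rfl, ?_,
    fun _ _ _ => rfl, fun _ _ => hne⟩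
  · intro w y hy
    obtain ⟨b, hb⟩ := mem_iUnion.1 hy
    exact mem_iUnion.2 ⟨_, hPa b y w hb⟩
  · intro y hy
    obtain ⟨b, hb⟩ := mem_iUnion.1 hy
    filter_upwards [(hPo b).mem_nhds hb] with z hz
    rw [hφ b z hz, hφ b y hb]
  · intro w y hy
    obtain ⟨b, hb⟩ := mem_iUnion.1 hy
    rw [hφ b y hb, hφ _ _ (hPa b y w hb)]

end Pool.Agent.W15
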