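import Pool.Agent.Helper43.W15.AS
import Pool.Agent.Helper43.W15.Datum

/-!
# The complex `C[u]` with the differential `d + u X`
-/

set_option autoImplicit false
set_option linter.unusedSectionVars false

open Set Topology Filter Module

namespace Pool.Agent.W15

section

variable {I : Type*} [Fintype I] [DecidableEq I] {k : Type*} [Field k] [Algebra (ZMod 2) k]
  {M : Type*} [TopologicalSpace M]

/-- the element `b = ∑ b_i u ^ i`; `b i n` is the component of `b_i` in degree `n` -/
abbrev EE (M k : Type*) : Type _ := (i n : ℕ) → Ch M k n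

/-- the operator `X = ∑ v_i g_i`, `g_i` the generators of `F_2 ^ I` -/
def XX (A : Act I M) (v : I → k) (n : ℕ) : Ch M k n →ₗ[k] Ch M k n :=
  ∑ i, v i • pull k (A.toFun (Pi.single i 1)) n

theorem XX_apply (A : Act I M) (v : I → k) (n : ℕ) (a : Ch M k n) (y : Fin (n + 1) → M) :
    XX A v n a y = ∑ i, v i * a fun j => A.toFun (Pi.single i 1) (y j) := by
  simp [XX, Finset.sum_apply, pull_apply]

/-- the internal part of the differential -/
def dd (a : (n : ℕ) → Ch M k n) : (n : ℕ) → Ch M k n
  | 0 => 0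
  | n + 1 => dl M k n (a n)

/-- the differential -/
def DD (A : Act I M) (v : I → k) (b : EE M k) : EE M k
  | 0, n => dd (b 0) n
  | i + 1, n => dd (b (i + 1)) n + XX A v n (b i n)

/-- multiplication by `u` -/
def uu (b : EE M k) : EE M k
  | 0, _ => 0
  | i + 1, n => b i n

theorem dd_dd (a : (n : ℕ) → Ch M k n) : dd (dd a) = 0 := by
  funext n
  match n with
  | 0 => rfl
  | 1 => exact map_zero _
  | n + 2 => exact dl_dl n (a n)

theorem dd_add (a b : (n : ℕ) → Ch M k n) : dd (a + b) = dd a + dd b := by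
  funext n
  match n with
  | 0 => exact (add_zero _).symm
  | n + 1 => exact map_add _ _ _

theorem dl_XX (A : Act I M) (v : I → k) (n : ℕ) (a : Ch M k n) :
    dl M k n (XX A v n a) = XX A v (n + 1) (dl M k n a) := by
  simp only [XX, LinearMap.sum_apply, map_sum, LinearMap.smul_apply, map_smul, dl_pull]

theorem dd_XX (A : Act I M) (v : I → k) (a : (n : ℕ) → Ch M k n) :
    dd (fun n => XX A v n (a n)) = fun n => XX A v n (dd a n) := by
  funext n
  match n with
  | 0 => exact (map_zero _).symm
  | n + 1 => exact dl_XX A v n (a n)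

theorem g_comm (A : Act I M) (i j : I) (x : M) :
    A.toFun (Pi.single i 1) (A.toFun (Pi.single j 1) x) =
      A.toFun (Pi.single j 1) (A.toFun (Pi.single i 1) x) := by
  rw [← A.add, ← A.add, add_comm]

theorem g_sq (A : Act I M) (i : I) (x : M) :
    A.toFun (Pi.single i 1) (A.toFun (Pi.single i 1) x) = x := by
  rw [← A.add, two_add, A.zero]

/-- in characteristic two a symmetric double sum is the sum over the diagonal -/
theorem sum_sq {V : Type*} [AddCommGroup V] (hV : ∀ x : V, x + x = 0) (F : I → I → V)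
    (hF : ∀ i j, F i j = F j i) : ∑ i, ∑ j, F i j = ∑ i, F i i := by
  classical
  rw [← Finset.sum_product', ← Finset.sum_filter_add_sum_filter_not
    (Finset.univ ×ˢ Finset.univ : Finset (I × I)) (fun p => p.1 = p.2)]
  have h1 : ∑ p ∈ (Finset.univ ×ˢ Finset.univ : Finset (I × I)).filter (fun p => ¬ p.1 = p.2),
      F p.1 p.2 = 0 := by
    refine Finset.sum_involution (fun p _ => (p.2, p.1)) ?_ ?_ ?_ ?_
    · rintro ⟨i, j⟩ _
      simp only
      rw [hF j i]
      exact hV _
    · rintro ⟨i, j⟩ hp _ h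
      have := (Finset.mem_filter.1 hp).2
      exact this (Prod.ext_iff.1 h).2
    · rintro ⟨i, j⟩ hp
      have := (Finset.mem_filter.1 hp).2
      refine Finset.mem_filter.2 ⟨Finset.mem_product.2 ⟨Finset.mem_univ _, Finset.mem_univ _⟩, ?_⟩
      exact fun h => this h.symm
    · rintro ⟨i, j⟩ _
      rfl
  rw [h1, add_zero]
  refine Finset.sum_bij' (fun p _ => p.1) (fun i _ => (i, i)) ?_ ?_ ?_ ?_ ?_
  · exact fun _ _ => Finset.mem_univ _
  · exact fun i _ => Finset.mem_filter.2 ⟨Finset.mem_product.2 ⟨Finset.mem_univ _, Finset.mem_univ _⟩, rfl⟩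
  · rintro ⟨i, j⟩ hp
    have h2 : i = j := (Finset.mem_filter.1 hp).2
    rw [h2]
  · exact fun _ _ => rfl
  · rintro ⟨i, j⟩ hp
    have h2 : i = j := (Finset.mem_filter.1 hp).2
    rw [h2]

theorem char_two (x : k) : x + x = 0 := by
  have : CharP k 2 := charP_of_injective_algebraMap (algebraMap (ZMod 2) k).injective 2
  exact CharTwo.add_self_eq_zero x

theorem sum_sq' (w : I → k) : ∑ i, w i * w i = (∑ i, w i) * ∑ i, w i := by
  rw [Finset.sum_mul_sum, sum_sq char_two (fun i j => w i * w j) (fun i j => mul_comm _ _)]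

theorem XX_XX (A : Act I M) {v : I → k} (hv : ∑ i, v i = 0) (n : ℕ) (a : Ch M k n) :
    XX A v n (XX A v n a) = 0 := by
  funext y
  rw [XX_apply]
  simp only [XX_apply, Finset.mul_sum, ← mul_assoc]
  rw [sum_sq char_two (fun i j => v i * v j * a fun l => A.toFun (Pi.single j 1) (A.toFun (Pi.single i 1) (y l)))
    (fun i j => by
      rw [mul_comm (v i)]
      simp only [g_comm A j i])]
  simp only [g_sq]
  rw [← Finset.sum_mul, sum_sq', hv, zero_mul, zero_mul, Pi.zero_apply]

theorem DD_DD (A : Act I M) {v : I → k} (hv : ∑ i, v i = 0) (b : EE M k) : DD A v (DD A v b) = 0 := by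
  funext i n
  match i with
  | 0 =>
    change dd (fun n => dd (b 0) n) n = 0
    exact congrFun (dd_dd (b 0)) n
  | 1 =>
    change dd (fun n => dd (b 1) n + XX A v n (b 0 n)) n + XX A v n (dd (b 0) n) = 0
    have h1 : (fun n => dd (b 1) n + XX A v n (b 0 n)) = dd (b 1) + fun n => XX A v n (b 0 n) := rfl
    rw [h1, dd_add, dd_dd, dd_XX, zero_add]
    funext y
    exact char_two _
  | i + 2 =>
    change dd (fun n => dd (b (i + 2)) n + XX A v n (b (i + 1) n)) n +
      XX A v n (dd (b (i + 1)) n + XX A v n (b i n)) = 0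
    have h1 : (fun n => dd (b (i + 2)) n + XX A v n (b (i + 1) n)) =
      dd (b (i + 2)) + fun n => XX A v n (b (i + 1) n) := rfl
    rw [h1, dd_add, dd_dd, dd_XX, zero_add, map_add, XX_XX A hv, add_zero]
    funext y
    exact char_two _

theorem DD_uu (A : Act I M) (v : I → k) (b : EE M k) : DD A v (uu b) = uu (DD A v b) := by
  funext i n
  match i with
  | 0 =>
    change dd (fun _ => 0) n = 0
    match n with
    | 0 => rfl
    | n + 1 => exact map_zero _
  | 1 =>
    change dd (b 0) n + XX A v n 0 = dd (b 0) n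
    rw [map_zero, add_zero]
  | i + 2 => rfl

theorem DD_add (A : Act I M) (v : I → k) (b b' : EE M k) :
    DD A v (b + b') = DD A v b + DD A v b' := by
  funext i n
  match i with
  | 0 => exact congrFun (dd_add (b 0) (b' 0)) n
  | i + 1 =>
    change dd (b (i + 1) + b' (i + 1)) n + XX A v n (b i n + b' i n) = _
    rw [dd_add, map_add]
    change _ = dd (b (i + 1)) n + XX A v n (b i n) + (dd (b' (i + 1)) n + XX A v n (b' i n))
    rw [Pi.add_apply]
    abel

end

end Pool.Agent.W15
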