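import Mathlib

set_option autoImplicit false

open Set Topology Filter Module
open scoped Manifold ContDiff

namespace Pool.Agent.W15

variable {E : Type*} [NormedAddCommGroup E] [NormedSpace ℝ E] [FiniteDimensional ℝ E]
  {M : Type*} [TopologicalSpace M] [ChartedSpace E M] [IsManifold 𝓘(ℝ, E) ∞ M] [CompactSpace M]

theorem dense_compl_range {F : Type*} [NormedAddCommGroup F] [NormedSpace ℝ F]
    [FiniteDimensional ℝ F] {f : M → F} (hf : ContMDiff 𝓘(ℝ, E) 𝓘(ℝ, F) ∞ f)
    (h : finrank ℝ E < finrank ℝ F) : Dense (range f)ᶜ := by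
  have h1 : ∀ x : M, ∃ r : ℝ, 0 < r ∧ Metric.ball (chartAt E x x) r ⊆ (chartAt E x).target :=
    fun x => Metric.isOpen_iff.1 (chartAt E x).open_target _
      ((chartAt E x).map_source (mem_chart_source E x))
  choose r hr hB using h1
  have hN : ∀ x : M, (chartAt E x).source ∩ (chartAt E x) ⁻¹' Metric.ball (chartAt E x x) (r x)
      ∈ 𝓝 x := by
    intro x
    exact ((chartAt E x).isOpen_inter_preimage Metric.isOpen_ball).mem_nhds
      ⟨mem_chart_source E x, Metric.mem_ball_self (hr x)⟩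
  obtain ⟨T, -, hT⟩ := (isCompact_univ (X := M)).elim_nhds_subcover _ (fun x _ => hN x)
  apply dense_compl_of_dimH_lt_finrank
  have h2 : range f ⊆ ⋃ x ∈ T, (f ∘ (chartAt E x).symm) '' Metric.ball (chartAt E x x) (r x) := by
    rintro _ ⟨y, rfl⟩
    obtain ⟨x, hx, hy⟩ := mem_iUnion₂.1 (hT (mem_univ y))
    refine mem_iUnion₂.2 ⟨x, hx, chartAt E x y, hy.2, ?_⟩
    simp only [Function.comp]
    rw [(chartAt E x).left_inv hy.1]
  refine lt_of_le_of_lt (dimH_mono h2) ?_
  have h3 : dimH (⋃ x ∈ T, (f ∘ (chartAt E x).symm) '' Metric.ball (chartAt E x x) (r x)) ≤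
      finrank ℝ E := by
    have h4 := dimH_bUnion (s := (T : Set M)) T.countable_toSet
      (fun x => (f ∘ (chartAt E x).symm) '' Metric.ball (chartAt E x x) (r x))
    simp only [Finset.mem_coe] at h4
    rw [h4]
    refine iSup₂_le fun x _ => ?_
    have h5 : ContDiffOn ℝ 1 (f ∘ (chartAt E x).symm) (Metric.ball (chartAt E x x) (r x)) := by
      have h6 : ContMDiffOn 𝓘(ℝ, E) 𝓘(ℝ, F) ∞ (f ∘ (chartAt E x).symm) (chartAt E x).target :=
        hf.comp_contMDiffOn (contMDiffOn_chart_symm (I := 𝓘(ℝ, E)) (x := x))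
      exact ((contMDiffOn_iff_contDiffOn.1 h6).mono (hB x)).of_le (by exact_mod_cast le_top)
    refine (h5.dimH_image_le (convex_ball _ _) Subset.rfl).trans ?_
    exact (dimH_mono (subset_univ _)).trans (Real.dimH_univ_eq_finrank E).le
  exact h3.trans_lt (by exact_mod_cast h)

/-- a generic translation: no `m + 1` of the functions are integers at the same point -/
theorem exists_generic {K : Type*} [Fintype K] [DecidableEq K] (h : K → M → ℝ)
    (hh : ∀ i, ContMDiff 𝓘(ℝ, E) 𝓘(ℝ, ℝ) ∞ (h i)) :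
    ∃ t : K → ℝ, ∀ S : Finset K, finrank ℝ E < S.card → ∀ z : K → ℤ, ∀ x, ∃ i ∈ S,
      h i x - t i ≠ z i := by
  have key : ∀ (p : {S : Finset K // finrank ℝ E < S.card} × (K → ℤ)),
      IsOpen {t : K → ℝ | ∀ x, ∃ i ∈ p.1.1, h i x - t i ≠ p.2 i} ∧
      Dense {t : K → ℝ | ∀ x, ∃ i ∈ p.1.1, h i x - t i ≠ p.2 i} := by
    rintro ⟨⟨S, hS⟩, z⟩
    let f : M → (S → ℝ) := fun x i => h i x - z i
    have hf : ContMDiff 𝓘(ℝ, E) 𝓘(ℝ, S → ℝ) ∞ f :=
      contMDiff_pi_space.2 fun i => (hh i).sub contMDiff_const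
    have h1 : Dense (range f)ᶜ := dense_compl_range hf (by
      rw [finrank_fintype_fun_eq_card, Fintype.card_coe]; exact hS)
    have h2 : IsOpen (range f)ᶜ := (isCompact_range hf.continuous).isClosed.isOpen_compl
    let ρ : (K → ℝ) →L[ℝ] (S → ℝ) := ContinuousLinearMap.pi fun i => ContinuousLinearMap.proj i.1
    have hρ : Function.Surjective ρ := by
      intro s
      refine ⟨fun i => if hi : i ∈ S then s ⟨i, hi⟩ else 0, ?_⟩
      funext i
      simp [ρ]
    have h3 : {t : K → ℝ | ∀ x, ∃ i ∈ S, h i x - t i ≠ z i} = ρ ⁻¹' (range f)ᶜ := by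
      ext t
      simp only [mem_ofPred_eq, mem_preimage, mem_compl_iff, mem_range, not_exists]
      apply forall_congr'
      intro x
      constructor
      · rintro ⟨i, hi, hne⟩ heq
        apply hne
        have h4 := congrFun heq ⟨i, hi⟩
        simp only [f, ρ] at h4
        have h5 : h i x - z i = t i := h4
        linarith
      · intro hne
        by_contra hcon
        push Not at hcon
        apply hne
        funext i
        have h5 := hcon i.1 i.2
        change h i.1 x - z i.1 = t i.1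
        linarith
    rw [h3]
    exact ⟨h2.preimage ρ.continuous, h1.preimage (ρ.isOpenMap hρ)⟩
  have h1 := dense_iInter_of_isOpen (fun p => (key p).1) (fun p => (key p).2)
  obtain ⟨t, ht⟩ := h1.nonempty
  refine ⟨t, fun S hS z x => ?_⟩
  exact mem_iInter.1 ht (⟨S, hS⟩, z) x

end Pool.Agent.W15
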