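import Pool.Agent.Helper43.W15.Core

/-!
# The contracting operators over an invariant open set with good data
-/

set_option autoImplicit false
set_option linter.unusedSectionVars false

open Set Topology Filter Module

namespace Pool.Agent.W15

section

variable {I : Type*} [Fintype I] [DecidableEq I] {k : Type*} [Field k] [Algebra (ZMod 2) k]
  {M : Type*} [TopologicalSpace M]

/-- the coefficients `κ_i v_i` -/
def ww (v : I → k) (κ : M → (I → ZMod 2) →ₗ[ZMod 2] ZMod 2) (x : M) (i : I) : k :=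
  κ x (Pi.single i 1) • v i

/-- the scalar in front -/
noncomputable def ff (v : I → k) (φ : M → ZMod 2) (κ : M → (I → ZMod 2) →ₗ[ZMod 2] ZMod 2) (x : M) : k :=
  φ x • ((∑ i, ww v κ x i) * ∑ i, ww v κ x i)⁻¹

/-- the operator `e` -/
noncomputable def eop (A : Act I M) (v : I → k) (φ : M → ZMod 2)
    (κ : M → (I → ZMod 2) →ₗ[ZMod 2] ZMod 2) (n : ℕ) (a : Ch M k n) : Ch M k n :=
  fun y => ff v φ κ (y 0) * XX A (ww v κ (y 0)) n a y

variable {A : Act I M} {v : I → k} {V : Set M} {φ : M → ZMod 2}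
    {κ : M → (I → ZMod 2) →ₗ[ZMod 2] ZMod 2}

theorem eop_add (n : ℕ) (a b : Ch M k n) :
    eop A v φ κ n (a + b) = eop A v φ κ n a + eop A v φ κ n b := by
  funext y
  simp only [eop, map_add, Pi.add_apply, mul_add]

theorem eop_near (h : Datum A v V φ κ) {x : M} (hx : x ∈ V) (n : ℕ) (a : Ch M k n) :
    VN (eop A v φ κ n a - ff v φ κ x • XX A (ww v κ x) n a) x := by
  have h0 : Tendsto (fun y : Fin (n + 1) → M => y 0) (𝓝 fun _ => x) (𝓝 x) :=
    (continuous_apply (0 : Fin (n + 1))).tendsto (fun _ => x)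
  filter_upwards [h0.eventually (h.phi_loc x hx), h0.eventually (h.kap_loc x hx)] with y h1 h2
  rw [Pi.sub_apply, Pi.smul_apply, smul_eq_mul, sub_eq_zero]
  have h3 : ww v κ (y 0) = ww v κ x := by
    funext i
    simp only [ww, h2]
  have h4 : ff v φ κ (y 0) = ff v φ κ x := by
    simp only [ff, h1, h3]
  simp only [eop, h3, h4]

theorem VN.add {n : ℕ} {a b : Ch M k n} {x : M} (ha : VN a x) (hb : VN b x) : VN (a + b) x := by
  filter_upwards [ha, hb] with y h1 h2
  rw [Pi.add_apply, h1, h2, add_zero]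

theorem VN.sub {n : ℕ} {a b : Ch M k n} {x : M} (ha : VN a x) (hb : VN b x) : VN (a - b) x := by
  filter_upwards [ha, hb] with y h1 h2
  rw [Pi.sub_apply, h1, h2, sub_zero]

theorem VN.zero {n : ℕ} (x : M) : VN (0 : Ch M k n) x := Eventually.of_forall fun _ => rfl

theorem VN.XX {n : ℕ} {a : Ch M k n} {x : M} (w : I → k)
    (h : ∀ i, VN a (A.toFun (Pi.single i 1) x)) : VN (XX A w n a) x := by
  have h1 : ∀ i, VN (W15.pull k (A.toFun (Pi.single i 1)) n a) x := fun i =>
    VN.pull (A.cont _) (h i)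
  filter_upwards [eventually_all.2 h1] with y hy
  rw [XX_apply]
  refine Finset.sum_eq_zero fun i _ => ?_
  have h2 := hy i
  rw [pull_apply] at h2
  rw [h2, mul_zero]

theorem VN.eop {n : ℕ} {a : Ch M k n} {x : M}
    (h : ∀ i, VN a (A.toFun (Pi.single i 1) x)) : VN (eop A v φ κ n a) x := by
  have h1 : ∀ i, VN (W15.pull k (A.toFun (Pi.single i 1)) n a) x := fun i =>
    VN.pull (A.cont _) (h i)
  filter_upwards [eventually_all.2 h1] with y hy
  rw [W15.eop, XX_apply, Finset.sum_eq_zero, mul_zero]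
  intro i _
  have h2 := hy i
  rw [pull_apply] at h2
  rw [h2, mul_zero]

theorem VN.dd {z : (n : ℕ) → Ch M k n} {x : M} (h : ∀ n, VN (z n) x) (n : ℕ) : VN (dd z n) x := by
  match n with
  | 0 => exact VN.zero x
  | n + 1 => exact VN.dl (h n)

theorem dl_eop (h : Datum A v V φ κ) {x : M} (hx : x ∈ V) (n : ℕ) (a : Ch M k n) :
    VN (dl M k n (eop A v φ κ n a) - eop A v φ κ (n + 1) (dl M k n a)) x := by
  have h1 := VN.dl (eop_near h hx n a)
  have h2 := eop_near h hx (n + 1) (dl M k n a)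
  rw [map_sub, map_smul, dl_XX] at h1
  have h3 := h1.sub h2
  convert h3 using 1
  abel

theorem dd_eop (h : Datum A v V φ κ) {x : M} (hx : x ∈ V) (z : (n : ℕ) → Ch M k n) (n : ℕ) :
    VN (dd (fun n => eop A v φ κ n (z n)) n - eop A v φ κ n (dd z n)) x := by
  match n with
  | 0 =>
    have h1 : dd (fun n => eop A v φ κ n (z n)) 0 - eop A v φ κ 0 (dd z 0) = 0 := by
      funext y
      simp [dd, eop]
    rw [h1]
    exact VN.zero x
  | n + 1 => exact dl_eop h hx n (z n)

theorem XX_eop (h : Datum A v V φ κ) (n : ℕ) (a : Ch M k n) (y : Fin (n + 1) → M) (hy : y 0 ∈ V) :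
    XX A v n (eop A v φ κ n a) y + eop A v φ κ n (XX A v n a) y = a y := by
  obtain ⟨x, hx⟩ : ∃ x, x = y 0 := ⟨_, rfl⟩
  rw [← hx] at hy
  obtain ⟨L, hL⟩ : ∃ L, L = ∑ i, ww v κ x i := ⟨_, rfl⟩
  have hL0 : L ≠ 0 := by rw [hL]; exact h.ne x hy
  have h1 : ∀ i, ww v κ (A.toFun (Pi.single i 1) x) = ww v κ x := by
    intro i
    funext l
    simp only [ww, h.kap_act _ x hy]
  have h2 : ∀ i, ff v φ κ (A.toFun (Pi.single i 1) x) =
      (φ x + κ x (Pi.single i 1)) • (L * L)⁻¹ := by
    intro i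
    simp only [ff, h1, h.phi_act _ x hy, hL]
  have h3 : ff v φ κ x = φ x • (L * L)⁻¹ := by simp only [ff, hL]
  have h4 : XX A v n (eop A v φ κ n a) y = φ x • ((L * L)⁻¹ *
      ∑ i, ∑ l, v i * ww v κ x l * a (fun j => A.toFun (Pi.single l 1) (A.toFun (Pi.single i 1) (y j)))) +
      (L * L)⁻¹ * ∑ i, ∑ l, ww v κ x i * ww v κ x l *
        a (fun j => A.toFun (Pi.single l 1) (A.toFun (Pi.single i 1) (y j))) := by
    rw [XX_apply]
    simp only [eop, ← hx, h1, h2, XX_apply, Finset.mul_sum, Finset.smul_sum]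
    rw [← Finset.sum_add_distrib]
    refine Finset.sum_congr rfl fun i _ => ?_
    rw [← Finset.sum_add_distrib]
    refine Finset.sum_congr rfl fun l _ => ?_
    rw [add_smul]
    simp only [ww, Algebra.smul_def]
    ring
  have h5 : eop A v φ κ n (XX A v n a) y = φ x • ((L * L)⁻¹ *
      ∑ i, ∑ l, v i * ww v κ x l * a (fun j => A.toFun (Pi.single l 1) (A.toFun (Pi.single i 1) (y j)))) := by
    simp only [eop, ← hx, h3, XX_apply]
    rw [smul_mul_assoc]
    congr 2
    simp only [Finset.mul_sum]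
    rw [Finset.sum_comm]
    refine Finset.sum_congr rfl fun i _ => Finset.sum_congr rfl fun l _ => ?_
    rw [← mul_assoc, mul_comm (v i)]
    simp only [g_comm A l i]
  rw [h4, h5, add_right_comm, char_two, zero_add,
    sum_sq char_two (fun i l => ww v κ x i * ww v κ x l *
        a (fun j => A.toFun (Pi.single l 1) (A.toFun (Pi.single i 1) (y j)))) (fun i l => by
      rw [mul_comm (ww v κ x i)]
      simp only [g_comm A l i])]
  simp only [g_sq]
  rw [← Finset.sum_mul, sum_sq', ← hL, ← mul_assoc, inv_mul_cancel₀ (mul_ne_zero hL0 hL0), one_mul]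

/-- the operator `e` on `C[u]` -/
noncomputable def eE (A : Act I M) (v : I → k) (φ : M → ZMod 2)
    (κ : M → (I → ZMod 2) →ₗ[ZMod 2] ZMod 2) (z : EE M k) : EE M k :=
  fun i n => eop A v φ κ n (z i n)

theorem near_V (h : Datum A v V φ κ) {x : M} (hx : x ∈ V) (z : EE M k) (i n : ℕ) :
    VN (uu z i n + DD A v (eE A v φ κ z) i n + eop A v φ κ n (DD A v z i n)) x := by
  have hd := dd_eop h hx (z i) n
  match i with
  | 0 =>
    change VN (0 + dd (fun n => eop A v φ κ n (z 0 n)) n + eop A v φ κ n (dd (z 0) n)) x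
    filter_upwards [hd] with y hy
    rw [Pi.sub_apply, sub_eq_zero] at hy
    rw [Pi.add_apply, Pi.add_apply, Pi.zero_apply, hy, zero_add, char_two]
  | i + 1 =>
    change VN (z i n + (dd (fun n => eop A v φ κ n (z (i + 1) n)) n + XX A v n (eop A v φ κ n (z i n))) +
      eop A v φ κ n (dd (z (i + 1)) n + XX A v n (z i n))) x
    have h0 : Tendsto (fun y : Fin (n + 1) → M => y 0) (𝓝 fun _ => x) (𝓝 x) :=
      (continuous_apply (0 : Fin (n + 1))).tendsto (fun _ => x)
    filter_upwards [hd, h0.eventually (h.isOpen.mem_nhds hx)] with y hy hy0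
    have h1 := XX_eop h n (z i n) y hy0
    rw [Pi.sub_apply, sub_eq_zero] at hy
    rw [eop_add]
    simp only [Pi.add_apply]
    rw [hy]
    have h2 : z i n y + (eop A v φ κ n (dd (z (i + 1)) n) y + (XX A v n) (eop A v φ κ n (z i n)) y) +
        (eop A v φ κ n (dd (z (i + 1)) n) y + eop A v φ κ n ((XX A v n) (z i n)) y) =
        z i n y + ((XX A v n) (eop A v φ κ n (z i n)) y + eop A v φ κ n ((XX A v n) (z i n)) y) +
        (eop A v φ κ n (dd (z (i + 1)) n) y + eop A v φ κ n (dd (z (i + 1)) n) y) := by ring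
    rw [h2, h1, char_two, char_two, add_zero]

/-- vanishing near the orbit of `x` -/
def VO (A : Act I M) (z : EE M k) (x : M) : Prop := ∀ w i n, VN (z i n) (A.toFun w x)

theorem VO.act {z : EE M k} {x : M} (h : VO A z x) (w : I → ZMod 2) : VO A z (A.toFun w x) := by
  intro w' i n
  rw [← A.add]
  exact h _ i n

theorem VO.uu {z : EE M k} {x : M} (h : VO A z x) : VO A (uu z) x := by
  intro w i n
  match i with
  | 0 => exact VN.zero _
  | i + 1 => exact h w i n

theorem VO.eE {z : EE M k} {x : M} (h : VO A z x) : VO A (eE A v φ κ z) x := by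
  intro w i n
  refine VN.eop fun l => ?_
  rw [← A.add]
  exact h _ i n

theorem VO.DD {z : EE M k} {x : M} (h : VO A z x) : VO A (DD A v z) x := by
  intro w i n
  match i with
  | 0 => exact VN.dd (fun n => h w 0 n) n
  | i + 1 =>
    refine VN.add (VN.dd (fun n => h w (i + 1) n) n) (VN.XX v fun l => ?_)
    rw [← A.add]
    exact h _ i n

theorem VO.add {z z' : EE M k} {x : M} (h : VO A z x) (h' : VO A z' x) : VO A (z + z') x :=
  fun w i n => VN.add (h w i n) (h' w i n)

/-- one step -/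
theorem step (h : Datum A v V φ κ) (hv : ∑ i, v i = 0) (z : EE M k) (S : Set M)
    (hz : ∀ i n, DD A v z i n ∈ LZ M k n) (hS : ∀ x ∈ S, VO A z x) :
    (∀ i n, DD A v (uu z + DD A v (eE A v φ κ z)) i n ∈ LZ M k n) ∧
    ∀ x ∈ S ∪ V, VO A (uu z + DD A v (eE A v φ κ z)) x := by
  constructor
  · intro i n
    rw [DD_add, DD_DD A hv, add_zero, DD_uu]
    match i with
    | 0 => exact Submodule.zero_mem _
    | i + 1 => exact hz i n
  · rintro x (hx | hx)
    · exact (hS x hx).uu.add (hS x hx).eE.DD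
    · intro w i n
      have h1 := near_V h (h.inv w x hx) z i n
      have h2 : VN (eop A v φ κ n (DD A v z i n)) (A.toFun w x) :=
        VN.eop fun l => hz i n _
      have h3 := h1.sub h2
      convert h3 using 1
      change uu z i n + DD A v (eE A v φ κ z) i n = _
      abel

/-- the element `u ^ s` -/
def oneS (M k : Type*) [Field k] (s : ℕ) : EE M k := fun i n _ => if i = s ∧ n = 0 then 1 else 0

theorem uu_oneS (s : ℕ) : uu (oneS M k s) = oneS M k (s + 1) := by
  funext i n y
  match i with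
  | 0 => simp [uu, oneS]
  | i + 1 => simp [uu, oneS]

theorem DD_oneS (A : Act I M) {v : I → k} (hv : ∑ i, v i = 0) : DD A v (oneS M k 0) = 0 := by
  funext i n y
  match i, n with
  | 0, 0 => rfl
  | 0, 1 =>
    change dl M k 0 (oneS M k 0 0 0) y = 0
    rw [dl_apply]
    simp [oneS, Fin.sum_univ_two]
  | 0, n + 2 =>
    change dl M k (n + 1) (oneS M k 0 0 (n + 1)) y = 0
    rw [dl_apply]
    simp [oneS]
  | i + 1, n =>
    change dd (oneS M k 0 (i + 1)) n y + XX A v n (oneS M k 0 i n) y = 0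
    have h1 : dd (oneS M k 0 (i + 1)) n y = 0 := by
      match n with
      | 0 => rfl
      | n + 1 =>
        change dl M k n (oneS M k 0 (i + 1) n) y = 0
        rw [dl_apply]
        simp [oneS]
    rw [h1, zero_add, XX_apply]
    simp only [oneS]
    rw [← Finset.sum_mul, hv, zero_mul]

/-- if `M` is covered by `r` sets with good data, then `u ^ r` is a boundary -/
theorem exists_boundary (hv : ∑ i, v i = 0) {r : ℕ} {V : Fin r → Set M} {φ : Fin r → M → ZMod 2}
    {κ : Fin r → M → (I → ZMod 2) →ₗ[ZMod 2] ZMod 2} (h : ∀ j, Datum A v (V j) (φ j) (κ j))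
    (hcov : ∀ x, ∃ j, x ∈ V j) :
    ∃ b : EE M k, ∀ i n, oneS M k r i n + DD A v b i n ∈ LZ M k n := by
  have key : ∀ s, s ≤ r → ∃ b : EE M k, (∀ i n, DD A v (oneS M k s + DD A v b) i n ∈ LZ M k n) ∧
      ∀ (j : Fin r), (j : ℕ) < s → ∀ x ∈ V j, VO A (oneS M k s + DD A v b) x := by
    intro s
    induction s with
    | zero =>
      intro _
      refine ⟨0, fun i n => ?_, fun j hj => absurd hj (Nat.not_lt_zero _)⟩
      rw [DD_add, DD_DD A hv, DD_oneS A hv, add_zero]
      exact Submodule.zero_mem _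
    | succ s ih =>
      intro hs
      obtain ⟨b, hb1, hb2⟩ := ih (by omega)
      have h1 := step (h ⟨s, hs⟩) hv (oneS M k s + DD A v b) (⋃ (j : Fin r) (_ : (j : ℕ) < s), V j)
        hb1 (by
          intro x hx
          obtain ⟨j, hj, hx⟩ := mem_iUnion₂.1 hx
          exact hb2 j hj x hx)
      have h2 : uu (oneS M k s + DD A v b) +
          DD A v (eE A v (φ ⟨s, hs⟩) (κ ⟨s, hs⟩) (oneS M k s + DD A v b)) =
          oneS M k (s + 1) + DD A v (uu b +
            eE A v (φ ⟨s, hs⟩) (κ ⟨s, hs⟩) (oneS M k s + DD A v b)) := by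
        rw [DD_add, DD_uu, ← uu_oneS]
        have h3 : uu (oneS M k s + DD A v b) = uu (oneS M k s) + uu (DD A v b) := by
          funext i n
          match i with
          | 0 => exact (add_zero _).symm
          | i + 1 => rfl
        rw [h3, add_assoc]
      rw [h2] at h1
      refine ⟨_, h1.1, fun j hj x hx => h1.2 x ?_⟩
      rcases Nat.lt_succ_iff_lt_or_eq.1 hj with hj | hj
      · exact Or.inl (mem_iUnion₂.2 ⟨j, hj, hx⟩)
      · right
        have : j = ⟨s, hs⟩ := Fin.ext hj
        rw [← this]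
        exact hx
  obtain ⟨b, -, hb⟩ := key r le_rfl
  refine ⟨b, fun i n x => ?_⟩
  obtain ⟨j, hj⟩ := hcov x
  have h1 := hb j j.2 x hj 0 i n
  rw [A.zero] at h1
  exact h1

end

end Pool.Agent.W15
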