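import Pool.Agent.Helper43.W15.Datum
import Pool.Agent.Helper43.W15.Dim

set_option autoImplicit false

open Set Topology Filter Module
open scoped Manifold ContDiff

namespace Pool.Agent.W15

variable {I : Type*} [Fintype I] [DecidableEq I] {k : Type*} [Field k] [Algebra (ZMod 2) k]
  {M : Type*} [TopologicalSpace M]

theorem floor_loc {r : ℝ} (hr : ∀ n : ℤ, r ≠ n) : ∀ᶠ s in 𝓝 r, ⌊s⌋ = ⌊r⌋ := by
  have h1 : (⌊r⌋ : ℝ) < r := lt_of_le_of_ne (Int.floor_le r) (Ne.symm (hr _))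
  filter_upwards [Ioo_mem_nhds h1 (Int.lt_floor_add_one r)] with s hs
  exact Int.floor_eq_iff.2 ⟨hs.1.le, hs.2⟩

theorem sin_ne_zero_of {r : ℝ} (h : 0 < |Real.sin (Real.pi * r)|) (n : ℤ) : r ≠ n := by
  rintro rfl
  rw [mul_comm, Real.sin_int_mul_pi, abs_zero] at h
  exact lt_irrefl _ h

theorem sin_ne_one_of {r : ℝ} (h : |Real.sin (Real.pi * r)| < 1) (n : ℤ) : r + 1 / 2 ≠ n := by
  intro h1
  have h2 : Real.pi * r = n * Real.pi - Real.pi / 2 := by
    have : r = n - 1 / 2 := by linarith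
    rw [this]; ring
  rw [h2, Real.sin_sub_pi_div_two, abs_neg, Real.cos_int_mul_pi] at h
  rcases Int.even_or_odd n with hn | hn
  · rw [hn.neg_one_zpow, abs_one] at h
    exact lt_irrefl _ h
  · rw [hn.neg_one_zpow, abs_neg, abs_one] at h
    exact lt_irrefl _ h

theorem int_of_sin_eq_zero {r : ℝ} (h : |Real.sin (Real.pi * r)| = 0) : ∃ n : ℤ, r = n := by
  obtain ⟨n, hn⟩ := Real.sin_eq_zero_iff.1 (abs_eq_zero.1 h)
  refine ⟨n, ?_⟩
  have := Real.pi_pos.ne'
  rw [mul_comm] at hn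
  exact (mul_left_cancel₀ this hn).symm

/-- Combinatorial part: from finitely many local data and invariant functions `q i`. -/
theorem colors_aux {K : Type*} [Fintype K] [DecidableEq K] (A : Act I M) (v : I → k) (m : ℕ)
    (V0 : K → Set M) (φ0 : K → M → ZMod 2) (κ0 : K → M → (I → ZMod 2) →ₗ[ZMod 2] ZMod 2)
    (hD : ∀ i, Datum A v (V0 i) (φ0 i) (κ0 i)) (q : K → M → ℝ) (hq : ∀ i, Continuous (q i))
    (hqA : ∀ i w x, q i (A.toFun w x) = q i x)
    (hc : ∀ x : M, ∃ i : K, ∀ y, |q i y - q i x| < 1 → y ∈ V0 i)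
    (hg : ∀ S : Finset K, m < S.card → ∀ z : K → ℤ, ∀ x, ∃ i ∈ S, q i x ≠ z i) [Nonempty M] :
    ∃ (V : Fin (m + 1) → Set M) (φ : Fin (m + 1) → M → ZMod 2)
      (κ : Fin (m + 1) → M → (I → ZMod 2) →ₗ[ZMod 2] ZMod 2),
      (∀ j, Datum A v (V j) (φ j) (κ j)) ∧ ∀ x, ∃ j, x ∈ V j := by
  classical
  choose c hc using hc
  obtain ⟨a, ha⟩ : ∃ a : K → M → ℝ, ∀ i x, a i x = |Real.sin (Real.pi * q i x)| :=
    ⟨_, fun _ _ => rfl⟩
  have ha_cont : ∀ i, Continuous (a i) := by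
    intro i
    have : a i = fun x => |Real.sin (Real.pi * q i x)| := funext (ha i)
    rw [this]
    exact (Real.continuous_sin.comp (continuous_const.mul (hq i))).abs
  have ha_nn : ∀ i x, 0 ≤ a i x := fun i x => by rw [ha]; exact abs_nonneg _
  have haA : ∀ i w x, a i (A.toFun w x) = a i x := fun i w x => by rw [ha, ha, hqA]
  obtain ⟨VS, hVS⟩ : ∃ VS : Finset K → Set M, ∀ S x, x ∈ VS S ↔
      (∀ i ∈ S, ∀ l ∉ S, a i x < a l x) ∧ (∀ i ∈ S, a i x < 1) ∧ (∀ l ∉ S, 0 < a l x) :=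
    ⟨fun S => {x | (∀ i ∈ S, ∀ l ∉ S, a i x < a l x) ∧ (∀ i ∈ S, a i x < 1) ∧
      (∀ l ∉ S, 0 < a l x)}, fun S x => Iff.rfl⟩
  have hVSo : ∀ S, IsOpen (VS S) := by
    intro S
    have h1 : VS S = (⋂ i ∈ S, ⋂ l ∈ Sᶜ, {x | a i x < a l x}) ∩ ((⋂ i ∈ S, {x | a i x < 1}) ∩
        ⋂ l ∈ Sᶜ, {x | 0 < a l x}) := by
      ext x
      rw [hVS]
      simp
    rw [h1]
    refine IsOpen.inter ?_ (IsOpen.inter ?_ ?_)
    · exact isOpen_biInter_finset fun i _ => isOpen_biInter_finset fun l _ =>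
        isOpen_lt (ha_cont i) (ha_cont l)
    · exact isOpen_biInter_finset fun i _ => isOpen_lt (ha_cont i) continuous_const
    · exact isOpen_biInter_finset fun i _ => isOpen_lt continuous_const (ha_cont i)
  have hVSA : ∀ S w x, x ∈ VS S → A.toFun w x ∈ VS S := by
    intro S w x hx
    rw [hVS] at hx ⊢
    simpa only [haA] using hx
  obtain ⟨z, hz⟩ : ∃ z : Finset K → M → K → ℤ, ∀ S x i, z S x i =
      if i ∈ S then ⌊q i x + 1 / 2⌋ else ⌊q i x⌋ := ⟨_, fun _ _ _ => rfl⟩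
  have hz_loc : ∀ S, ∀ x ∈ VS S, ∀ᶠ y in 𝓝 x, z S y = z S x := by
    intro S x hx
    rw [hVS] at hx
    have h1 : ∀ i, ∀ᶠ y in 𝓝 x, z S y i = z S x i := by
      intro i
      by_cases hi : i ∈ S
      · have h2 := hx.2.1 i hi
        rw [ha] at h2
        have h3 : Tendsto (fun y => q i y + 1 / 2) (𝓝 x) (𝓝 (q i x + 1 / 2)) :=
          ((hq i).add continuous_const).tendsto x
        filter_upwards [h3.eventually (floor_loc (sin_ne_one_of h2))] with y hy
        rw [hz, hz, if_pos hi, if_pos hi, hy]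
      · have h2 := hx.2.2 i hi
        rw [ha] at h2
        filter_upwards [((hq i).tendsto x).eventually (floor_loc (sin_ne_zero_of h2))] with y hy
        rw [hz, hz, if_neg hi, if_neg hi, hy]
    filter_upwards [eventually_all.2 h1] with y hy
    exact funext hy
  have hzA : ∀ S w x, z S (A.toFun w x) = z S x := by
    intro S w x
    funext i
    rw [hz, hz, hqA]
  obtain ⟨x0⟩ := ‹Nonempty M›
  let ι : Finset K → (K → ℤ) → K := fun S z' =>
    if h : ∃ x, x ∈ VS S ∧ z S x = z' then c h.choose else c x0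
  have hι : ∀ S, ∀ x ∈ VS S, x ∈ V0 (ι S (z S x)) := by
    intro S x hx
    have h : ∃ y, y ∈ VS S ∧ z S y = z S x := ⟨x, hx, rfl⟩
    have h1 : ι S (z S x) = c h.choose := dif_pos h
    rw [h1]
    apply hc
    have h2 := congrFun h.choose_spec.2 (c h.choose)
    rw [hz, hz] at h2
    split_ifs at h2 with h3
    · have h4 := Int.abs_sub_lt_one_of_floor_eq_floor h2
      rw [abs_sub_comm]
      simpa using h4
    · rw [abs_sub_comm]
      exact Int.abs_sub_lt_one_of_floor_eq_floor h2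
  have huniq : ∀ S S' : Finset K, S.card = S'.card → ∀ x, x ∈ VS S → x ∈ VS S' → S = S' := by
    intro S S' hcard x hx hx'
    rw [hVS] at hx hx'
    by_contra hne
    have h1 : ¬ S ⊆ S' := fun h => hne (Finset.eq_of_subset_of_card_le h hcard.ge)
    have h2 : ¬ S' ⊆ S := fun h => hne (Finset.eq_of_subset_of_card_le h hcard.le).symm
    obtain ⟨i, hi, hi'⟩ := Finset.not_subset.1 h1
    obtain ⟨l, hl, hl'⟩ := Finset.not_subset.1 h2
    exact lt_asymm (hx.1 i hi l hl') (hx'.1 l hl i hi')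
  let sel : Fin (m + 1) → M → Finset K := fun j x =>
    if h : ∃ S : Finset K, S.card = j ∧ x ∈ VS S then h.choose else ∅
  have hsel : ∀ (j : Fin (m + 1)) x (S : Finset K), S.card = j → x ∈ VS S → sel j x = S := by
    intro j x S hS hx
    have h : ∃ S : Finset K, S.card = j ∧ x ∈ VS S := ⟨S, hS, hx⟩
    have h1 : sel j x = h.choose := dif_pos h
    rw [h1]
    exact huniq _ _ (h.choose_spec.1.trans hS.symm) x h.choose_spec.2 hx
  let ix : Fin (m + 1) → M → K := fun j x => ι (sel j x) (z (sel j x) x)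
  refine ⟨fun j => {x | ∃ S : Finset K, S.card = j ∧ x ∈ VS S}, fun j x => φ0 (ix j x) x,
    fun j x => κ0 (ix j x) x, ?_, ?_⟩
  · intro j
    -- local constancy and invariance of the index
    have hix_loc : ∀ x, (∃ S : Finset K, S.card = j ∧ x ∈ VS S) → ∀ᶠ y in 𝓝 x,
        ix j y = ix j x := by
      rintro x ⟨S, hS, hx⟩
      filter_upwards [(hVSo S).mem_nhds hx, hz_loc S x hx] with y hy hy'
      change ι (sel j y) (z (sel j y) y) = ι (sel j x) (z (sel j x) x)
      rw [hsel j y S hS hy, hsel j x S hS hx, hy']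
    have hix_A : ∀ x w, (∃ S : Finset K, S.card = j ∧ x ∈ VS S) →
        ix j (A.toFun w x) = ix j x := by
      rintro x w ⟨S, hS, hx⟩
      change ι (sel j _) (z (sel j _) _) = ι (sel j x) (z (sel j x) x)
      rw [hsel j _ S hS (hVSA S w x hx), hsel j x S hS hx, hzA]
    have hix_mem : ∀ x, (∃ S : Finset K, S.card = j ∧ x ∈ VS S) → x ∈ V0 (ix j x) := by
      rintro x ⟨S, hS, hx⟩
      change x ∈ V0 (ι (sel j x) (z (sel j x) x))
      rw [hsel j x S hS hx]
      exact hι S x hx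
    refine ⟨?_, ?_, ?_, ?_, ?_, ?_, ?_⟩
    · have h1 : {x | ∃ S : Finset K, S.card = (j : ℕ) ∧ x ∈ VS S} =
          ⋃ (S : Finset K) (_ : S.card = (j : ℕ)), VS S := by
        ext x
        simp
      change IsOpen {x | ∃ S : Finset K, S.card = (j : ℕ) ∧ x ∈ VS S}
      rw [h1]
      exact isOpen_iUnion fun S => isOpen_iUnion fun _ => hVSo S
    · rintro w x ⟨S, hS, hx⟩
      exact ⟨S, hS, hVSA S w x hx⟩
    · intro x hx
      filter_upwards [hix_loc x hx, (hD (ix j x)).phi_loc x (hix_mem x hx)] with y hy hy'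
      change φ0 (ix j y) y = φ0 (ix j x) x
      rw [hy, hy']
    · intro x hx
      filter_upwards [hix_loc x hx, (hD (ix j x)).kap_loc x (hix_mem x hx)] with y hy hy'
      change κ0 (ix j y) y = κ0 (ix j x) x
      rw [hy, hy']
    · intro w x hx
      change φ0 (ix j (A.toFun w x)) (A.toFun w x) = φ0 (ix j x) x + κ0 (ix j x) x w
      rw [hix_A x w hx]
      exact (hD (ix j x)).phi_act w x (hix_mem x hx)
    · intro w x hx
      change κ0 (ix j (A.toFun w x)) (A.toFun w x) = κ0 (ix j x) x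
      rw [hix_A x w hx]
      exact (hD (ix j x)).kap_act w x (hix_mem x hx)
    · intro x hx
      exact (hD (ix j x)).ne x (hix_mem x hx)
  · intro x
    let S : Finset K := Finset.univ.filter fun i => a i x = 0
    have hS : S.card ≤ m := by
      by_contra hcon
      have h1 : ∀ i, ∃ n : ℤ, i ∈ S → q i x = n := by
        intro i
        by_cases hi : i ∈ S
        · have h2 : a i x = 0 := (Finset.mem_filter.1 hi).2
          rw [ha] at h2
          obtain ⟨n, hn⟩ := int_of_sin_eq_zero h2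
          exact ⟨n, fun _ => hn⟩
        · exact ⟨0, fun h => absurd h hi⟩
      choose n hn using h1
      obtain ⟨i, hi, hne⟩ := hg S (not_le.1 hcon) n x
      exact hne (hn i hi)
    refine ⟨⟨S.card, Nat.lt_succ_of_le hS⟩, S, rfl, ?_⟩
    rw [hVS]
    have h0 : ∀ i ∈ S, a i x = 0 := fun i hi => (Finset.mem_filter.1 hi).2
    have h1 : ∀ l ∉ S, 0 < a l x := by
      intro l hl
      refine lt_of_le_of_ne (ha_nn l x) fun h => hl (Finset.mem_filter.2 ⟨Finset.mem_univ _, h.symm⟩)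
    refine ⟨fun i hi l hl => by rw [h0 i hi]; exact h1 l hl, fun i hi => by
      rw [h0 i hi]; exact one_pos, h1⟩

section manifold

variable {E : Type*} [NormedAddCommGroup E] [NormedSpace ℝ E] [FiniteDimensional ℝ E]
  [ChartedSpace E M] [IsManifold 𝓘(ℝ, E) ∞ M] [CompactSpace M] [T2Space M] [Nonempty M]

/-- If no point is fixed by all `w = (μ (v i))`, then `M` is covered by `dim M + 1` invariant open
sets with good data. -/
theorem exists_colors (A : Act I M) (hA : ∀ w, ContMDiff 𝓘(ℝ, E) 𝓘(ℝ, E) ∞ (A.toFun w))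
    (v : I → k) (h : ∀ x, ∃ μ : k →ₗ[ZMod 2] ZMod 2, A.toFun (fun i => μ (v i)) x ≠ x) :
    ∃ (V : Fin (finrank ℝ E + 1) → Set M) (φ : Fin (finrank ℝ E + 1) → M → ZMod 2)
      (κ : Fin (finrank ℝ E + 1) → M → (I → ZMod 2) →ₗ[ZMod 2] ZMod 2),
      (∀ j, Datum A v (V j) (φ j) (κ j)) ∧ ∀ x, ∃ j, x ∈ V j := by
  classical
  choose V0 φ0 κ0 hV0 hD using fun x => exists_local A v x (h x)
  -- bump functions
  have hb : ∀ x : M, ∃ f : SmoothBumpFunction 𝓘(ℝ, E) x, tsupport f ⊆ V0 x := by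
    intro x
    have h1 := (SmoothBumpFunction.nhds_basis_tsupport (I := 𝓘(ℝ, E)) x).mem_iff.1
      ((hD x).isOpen.mem_nhds (hV0 x))
    obtain ⟨f, -, hf⟩ := h1
    exact ⟨f, hf⟩
  choose ψ hψ using hb
  obtain ⟨H, hH⟩ : ∃ H : M → M → ℝ, ∀ x y, H x y = ∑ w, ψ x (A.toFun w y) := ⟨_, fun _ _ => rfl⟩
  have hHs : ∀ x, ContMDiff 𝓘(ℝ, E) 𝓘(ℝ, ℝ) ∞ (H x) := by
    intro x
    have h1 : H x = fun y => ∑ w, ψ x (A.toFun w y) := funext (hH x)
    rw [h1]
    exact contMDiff_finsetSum fun w _ => (ψ x).contMDiff.comp (hA w)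
  have hHA : ∀ x u y, H x (A.toFun u y) = H x y := by
    intro x u y
    rw [hH, hH]
    refine Fintype.sum_equiv (Equiv.addRight u) _ _ fun w => ?_
    rw [Equiv.coe_addRight, A.add]
  have hH1 : ∀ x, ∀ᶠ y in 𝓝 x, 1 ≤ H x y := by
    intro x
    filter_upwards [(ψ x).eventuallyEq_one] with y hy
    rw [hH]
    have h1 : ψ x (A.toFun 0 y) ≤ ∑ w, ψ x (A.toFun w y) :=
      Finset.single_le_sum (f := fun w => ψ x (A.toFun w y)) (fun w _ => (ψ x).nonneg)
        (Finset.mem_univ 0)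
    rw [A.zero, hy] at h1
    exact h1
  have hH0 : ∀ x y, 0 < H x y → y ∈ V0 x := by
    intro x y hy
    rw [hH] at hy
    obtain ⟨w, -, hw⟩ := Finset.exists_ne_zero_of_sum_ne_zero hy.ne'
    have h1 : A.toFun w y ∈ V0 x := hψ x (subset_closure hw)
    have h2 := (hD x).inv w _ h1
    rwa [← A.add, two_add, A.zero] at h2
  obtain ⟨T, -, hT⟩ := (isCompact_univ (X := M)).elim_nhds_subcover _ (fun x _ => hH1 x)
  obtain ⟨t, ht⟩ := exists_generic (E := E) (K := T) (fun i x => 2 * H i.1 x)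
    (fun i => contMDiff_const.mul (hHs i.1))
  refine colors_aux A v (finrank ℝ E) (K := T) (fun i => V0 i.1) (fun i => φ0 i.1)
    (fun i _ => κ0 i.1) (fun i => hD i.1) (fun i x => 2 * H i.1 x - t i)
    (fun i => (continuous_const.mul (hHs i.1).continuous).sub continuous_const)
    (fun i w x => by rw [hHA]) ?_ ht
  intro x
  obtain ⟨y, hy, hxy⟩ := mem_iUnion₂.1 (hT (mem_univ x))
  refine ⟨⟨y, hy⟩, fun z hz => hH0 y z ?_⟩
  have h1 : 1 ≤ H y x := hxy
  have h2 := abs_lt.1 hz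
  simp only at h2
  linarith [h2.1]

end manifold

end Pool.Agent.W15
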