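import Pool.Agent.Helper43.W15.Coh
import Pool.Agent.Helper43.W15.Step
import Pool.Agent.Helper43.W15.Walls
import Pool.Agent.Helper43.W15.Arith

/-!
# The eigenvalue argument
-/

set_option autoImplicit false
set_option linter.unusedSectionVars false

open Set Topology Filter Module Polynomial
open scoped Manifold ContDiff

namespace Pool.Agent.W15

section

variable {I : Type*} [Fintype I] [DecidableEq I] {k : Type*} [Field k] [Algebra (ZMod 2) k]
  {M : Type*} [TopologicalSpace M]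

/-- the action of `c` on `C[u]`, `c u = ζ⁻¹ u` -/
def cE (ζ : k) (c : M → M) : Module.End (ZMod 2) (EE M k) where
  toFun b i n := ζ⁻¹ ^ i • pull k c n (b i n)
  map_add' b b' := by
    funext i n
    simp only [Pi.add_apply, map_add, smul_add]
  map_smul' r b := by
    funext i n y
    exact smul_comm (ζ⁻¹ ^ i) r (b i n fun j => c (y j))

theorem cE_apply (ζ : k) (c : M → M) (b : EE M k) (i n : ℕ) :
    cE ζ c b i n = ζ⁻¹ ^ i • pull k c n (b i n) := rfl

/-- the differential, linear over `F_2` -/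
def DDz (A : Act I M) (v : I → k) : EE M k →ₗ[ZMod 2] EE M k :=
  (AddMonoidHom.mk' (DD A v) (DD_add A v)).toZModLinearMap 2

theorem DDz_apply (A : Act I M) (v : I → k) (b : EE M k) : DDz A v b = DD A v b := rfl

theorem dd_pull (r : k) (c : M → M) (a : (n : ℕ) → Ch M k n) (n : ℕ) :
    dd (fun n => r • pull k c n (a n)) n = r • pull k c n (dd a n) := by
  match n with
  | 0 => exact (smul_zero r).symm
  | n + 1 => exact map_smul (dl M k n) r (pull k c n (a n))

variable {A : Act I M} {v : I → k} {ζ : k} {c : M → M} {π : Equiv.Perm I}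

theorem XX_pull (hζ : ζ ≠ 0) (hπ : ∀ i x, c (A.toFun (Pi.single i 1) x) = A.toFun (Pi.single (π i) 1) (c x))
    (hv : ∀ i, v (π i) = ζ * v i) (n : ℕ) (a : Ch M k n) :
    XX A v n (pull k c n a) = ζ⁻¹ • pull k c n (XX A v n a) := by
  funext y
  rw [XX_apply, Pi.smul_apply, pull_apply, XX_apply, smul_eq_mul, Finset.mul_sum]
  simp only [pull_apply, hπ]
  rw [← Equiv.sum_comp π (fun i => ζ⁻¹ * (v i * a fun j => A.toFun (Pi.single i 1) (c (y j))))]
  refine Finset.sum_congr rfl fun i _ => ?_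
  rw [hv, mul_assoc ζ, inv_mul_cancel_left₀ hζ]

theorem DD_cE (hζ : ζ ≠ 0) (hπ : ∀ i x, c (A.toFun (Pi.single i 1) x) = A.toFun (Pi.single (π i) 1) (c x))
    (hv : ∀ i, v (π i) = ζ * v i) (b : EE M k) : DD A v (cE ζ c b) = cE ζ c (DD A v b) := by
  funext i n
  match i with
  | 0 => exact dd_pull _ c (b 0) n
  | i + 1 =>
    change dd (fun n => ζ⁻¹ ^ (i + 1) • pull k c n (b (i + 1) n)) n +
      XX A v n (ζ⁻¹ ^ i • pull k c n (b i n)) =
      ζ⁻¹ ^ (i + 1) • pull k c n (dd (b (i + 1)) n + XX A v n (b i n))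
    rw [dd_pull, map_add, smul_add, map_smul, XX_pull hζ hπ hv, smul_smul, pow_succ]

theorem cE_oneS (s : ℕ) : cE ζ c (oneS M k s) = fun i n => ζ⁻¹ ^ s • oneS M k s i n := by
  funext i n y
  rw [cE_apply, Pi.smul_apply, Pi.smul_apply, pull_apply]
  simp only [oneS]
  by_cases h : i = s ∧ n = 0
  · rw [h.1]
  · simp [h]

theorem aeval_oneS (P : (ZMod 2)[X]) (s : ℕ) :
    aeval (cE (M := M) ζ c) P (oneS M k s) = fun i n => aeval (ζ⁻¹ ^ s) P • oneS M k s i n := by
  let T : k →ₗ[ZMod 2] EE M k :=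
    { toFun := fun r i n => r • oneS M k s i n
      map_add' := fun r r' => by
        funext i n
        simp only [add_smul, Pi.add_apply]
      map_smul' := fun r r' => by
        funext i n y
        simp only [Pi.smul_apply, smul_assoc, RingHom.id_apply] }
  have h1 := aeval_comm (LinearMap.mulLeft (ZMod 2) (ζ⁻¹ ^ s)) (cE (M := M) ζ c) T (fun r => by
    funext i n y
    change (ζ⁻¹ ^ s * r) • oneS M k s i n y = (ζ⁻¹ ^ i • pull k c n (r • oneS M k s i n)) y
    rw [Pi.smul_apply, pull_apply, Pi.smul_apply]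
    simp only [oneS, smul_eq_mul]
    by_cases h : i = s ∧ n = 0
    · rw [h.1]; ring
    · simp [h]) P 1
  have h2 : T 1 = oneS M k s := by
    funext i n
    exact one_smul _ _
  rw [h2] at h1
  rw [← h1]
  have h3 : aeval (LinearMap.mulLeft (ZMod 2) (ζ⁻¹ ^ s)) P (1 : k) = aeval (ζ⁻¹ ^ s) P := by
    have h4 := aeval_comm (LinearMap.mulLeft (ZMod 2) (ζ⁻¹ ^ s)) (LinearMap.mulLeft (ZMod 2) (ζ⁻¹ ^ s))
      LinearMap.id (fun _ => rfl) P (1 : k)
    have h5 : (aeval (LinearMap.mulLeft (ZMod 2) (ζ⁻¹ ^ s)) P : Module.End (ZMod 2) k) =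
        LinearMap.mulLeft (ZMod 2) (aeval (ζ⁻¹ ^ s) P) := by
      have h6 := Polynomial.aeval_algHom_apply (Algebra.lmul (ZMod 2) k) (ζ⁻¹ ^ s) P
      exact h6
    rw [h5, LinearMap.mulLeft_apply, mul_one]
  rw [h3]
  rfl

/-- `u ^ s` is a boundary, up to functions vanishing near the diagonal -/
def Sol (A : Act I M) (v : I → k) (s : ℕ) : Prop :=
  ∃ b : EE M k, ∀ i n, i + n = s → oneS M k s i n + DD A v b i n ∈ LZ M k n

theorem not_sol_zero [Nonempty M] : ¬ Sol A v 0 := by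
  rintro ⟨b, hb⟩
  obtain ⟨x⟩ := ‹Nonempty M›
  have h1 := hb 0 0 rfl x
  obtain ⟨y, hy⟩ := h1.exists
  have h2 : oneS M k 0 0 0 y + DD A v b 0 0 y = 0 := hy
  have h3 : DD A v b 0 0 y = 0 := rfl
  rw [h3, add_zero] at h2
  simp [oneS] at h2

theorem XX_LZ (n : ℕ) {a : Ch M k n} (h : a ∈ LZ M k n) : XX A v n a ∈ LZ M k n :=
  fun _ => VN.XX v fun _ => h _

/-- the main step: divide by `u` -/
theorem sol_pred (hv0 : ∑ i, v i = 0) (hζ : ζ ≠ 0) (hc : Continuous c)
    (hπ : ∀ i x, c (A.toFun (Pi.single i 1) x) = A.toFun (Pi.single (π i) 1) (c x))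
    (hv : ∀ i, v (π i) = ζ * v i) [Module.Finite (ZMod 2) k] (r : ℕ) (hs : Sol A v (r + 1))
    (P : (ZMod 2)[X]) (hP : aeval (cH hc r) P = 0) (hne : aeval (ζ⁻¹ ^ (r + 1)) P ≠ 0) :
    Sol A v r := by
  obtain ⟨b, hb⟩ := hs
  obtain ⟨ρ, hρ⟩ : ∃ ρ, ρ = aeval (ζ⁻¹ ^ (r + 1)) P := ⟨_, rfl⟩
  rw [← hρ] at hne
  -- the cocycle
  have hβ : b 0 r ∈ Zc M k r := by
    have h1 := hb 0 (r + 1) (by omega)
    have h2 : oneS M k (r + 1) 0 (r + 1) = 0 := by
      funext y
      simp [oneS]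
    rw [h2, zero_add] at h1
    exact h1
  have hB := aeval_mem_Bc' hc r P hP (b 0 r) hβ
  -- polynomials in `c`
  have hD := aeval_comm (cE (M := M) ζ c) (cE ζ c) (DDz A v) (fun x => DD_cE hζ hπ hv x) P b
  rw [DDz_apply, DDz_apply] at hD
  let T : EE M k →ₗ[ZMod 2] Ch M k r := (LinearMap.proj r).comp (LinearMap.proj 0)
  have hT := aeval_comm (cE (M := M) ζ c) (pullz k c r) T (fun x => by
    change ζ⁻¹ ^ 0 • pull k c r (x 0 r) = pull k c r (x 0 r)
    rw [pow_zero, one_smul]) P b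
  let S : Submodule (ZMod 2) (EE M k) :=
    { carrier := {z | ∀ i n, i + n = r + 1 → z i n ∈ LZ M k n}
      add_mem' := fun h h' i n hin => Submodule.add_mem _ (h i n hin) (h' i n hin)
      zero_mem' := fun i n _ => Submodule.zero_mem _
      smul_mem' := fun a z h i n hin x => by
        filter_upwards [h i n hin x] with y hy
        change a • z i n y = 0
        rw [hy, smul_zero] }
  have hS := aeval_mem (cE (M := M) ζ c) S (fun z hz i n hin => by
    exact Submodule.smul_mem _ _ (pull_mem_LZ hc (hz i n hin))) P (oneS M k (r + 1) + DD A v b) hb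
  rw [map_add, aeval_oneS, ← hD, ← hρ] at hS
  -- subtract the boundary
  obtain ⟨b', hb'⟩ : ∃ b', b' = aeval (cE (M := M) ζ c) P b := ⟨_, rfl⟩
  rw [← hb'] at hS hT
  have hg : ∃ g : EE M k, (b' + DD A v g) 0 r ∈ LZ M k r := by
    have h1 : b' 0 r ∈ Bc M k r := by
      have h2 : b' 0 r = aeval (pullz k c r) P (b 0 r) := hT
      rw [h2]
      exact hB
    match r, b', h1 with
    | 0, b', h1 => exact ⟨0, by
        change b' 0 0 + DD A v 0 0 0 ∈ _
        have h2 : DD A v (0 : EE M k) 0 0 = 0 := rfl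
        rw [h2, add_zero]
        exact h1⟩
    | r + 1, b', h1 =>
      obtain ⟨a, ⟨γ, rfl⟩, l, hl, hal⟩ := Submodule.mem_sup.1 h1
      refine ⟨fun _ => Pi.single r γ, ?_⟩
      change b' 0 (r + 1) + dl M k r ((Pi.single r γ : (n : ℕ) → Ch M k n) r) ∈ _
      rw [Pi.single_eq_same, ← hal]
      have h2 : dl M k r γ + l + dl M k r γ = l := by
        funext y
        have h3 := char_two (dl M k r γ y)
        change dl M k r γ y + l y + dl M k r γ y = l y
        linear_combination h3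
      rw [h2]
      exact hl
  obtain ⟨g, hg⟩ := hg
  have hDg : DD A v (b' + DD A v g) = DD A v b' := by
    rw [DD_add, DD_DD A hv0, add_zero]
  rw [← hDg] at hS
  obtain ⟨b2, hb2⟩ : ∃ b2, b2 = b' + DD A v g := ⟨_, rfl⟩
  rw [← hb2] at hS hg
  refine ⟨fun i n => ρ⁻¹ • b2 (i + 1) n, fun i n hin => ?_⟩
  have h1 : ρ • oneS M k (r + 1) (i + 1) n + DD A v b2 (i + 1) n ∈ LZ M k n :=
    hS (i + 1) n (by omega)
  have h2 := Submodule.smul_mem _ ρ⁻¹ h1
  have h3 : oneS M k (r + 1) (i + 1) n = oneS M k r i n := by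
    funext y
    simp [oneS]
  rw [smul_add, smul_smul, inv_mul_cancel₀ hne, one_smul, h3] at h2
  have hdd : ∀ (a : (n : ℕ) → Ch M k n) (n : ℕ), dd (fun n => ρ⁻¹ • a n) n = ρ⁻¹ • dd a n := by
    intro a n
    match n with
    | 0 => exact (smul_zero _).symm
    | n + 1 => exact map_smul _ _ _
  match i with
  | 0 =>
    have hn : n = r := by omega
    subst hn
    change oneS M k n 0 n + dd (fun n => ρ⁻¹ • b2 1 n) n ∈ _
    rw [hdd]
    change oneS M k n 0 n + ρ⁻¹ • (dd (b2 1) n + XX A v n (b2 0 n)) ∈ _ at h2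
    rw [smul_add, ← add_assoc] at h2
    have h4 := Submodule.smul_mem _ ρ⁻¹ (XX_LZ (A := A) (v := v) n hg)
    exact (Submodule.add_mem_iff_left _ h4).1 h2
  | i + 1 =>
    change oneS M k r (i + 1) n + (dd (fun n => ρ⁻¹ • b2 (i + 2) n) n + XX A v n (ρ⁻¹ • b2 (i + 1) n)) ∈ _
    rw [hdd, map_smul, ← smul_add]
    exact h2

end

section manifold

variable {I : Type*} [Fintype I] [DecidableEq I] {k : Type*} [Field k] [Algebra (ZMod 2) k]
  {E : Type*} [NormedAddCommGroup E] [NormedSpace ℝ E] [FiniteDimensional ℝ E]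
  {M : Type*} [TopologicalSpace M] [ChartedSpace E M] [IsManifold 𝓘(ℝ, E) ∞ M] [CompactSpace M] [T2Space M] [Nonempty M]

/-- **Fixed points from eigenvectors of a normalising element.** -/
theorem exists_fixed [Module.Finite (ZMod 2) k] (A : Act I M)
    (hA : ∀ w, ContMDiff 𝓘(ℝ, E) 𝓘(ℝ, E) ∞ (A.toFun w)) {c : M → M} (hc : Continuous c)
    (π : Equiv.Perm I)
    (hπ : ∀ i x, c (A.toFun (Pi.single i 1) x) = A.toFun (Pi.single (π i) 1) (c x))
    (v : I → k) (ζ : k) (hζ0 : ζ ≠ 0) (hζ1 : ζ ≠ 1) (hv : ∀ i, v (π i) = ζ * v i)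
    (hH : ∀ j ≤ finrank ℝ E, Module.rank (ZMod 2) (HH M (ZMod 2) j) <
      (minpoly (ZMod 2) (ζ⁻¹ ^ (j + 1))).natDegree) :
    ∃ x, ∀ μ : k →ₗ[ZMod 2] ZMod 2, A.toFun (fun i => μ (v i)) x = x := by
  classical
  by_contra hcon
  push Not at hcon
  have hv0 : ∑ i, v i = 0 := by
    have h1 : ∑ i, v i = ζ * ∑ i, v i := by
      rw [Finset.mul_sum, ← Equiv.sum_comp π]
      exact Finset.sum_congr rfl fun i _ => hv i
    have h2 : (1 - ζ) * ∑ i, v i = 0 := by rw [sub_mul, one_mul, ← h1, sub_self]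
    rcases mul_eq_zero.1 h2 with h3 | h3
    · exact absurd (sub_eq_zero.1 h3).symm hζ1
    · exact h3
  obtain ⟨V, φ, κ, hD, hcov⟩ := exists_colors A hA v hcon
  obtain ⟨b, hb⟩ := exists_boundary hv0 hD hcov
  have hsol : Sol A v (finrank ℝ E + 1) := ⟨b, fun i n _ => hb i n⟩
  have key : ∀ r ≤ finrank ℝ E + 1, Sol A v r → Sol A v 0 := by
    intro r
    induction r with
    | zero => exact fun _ h => h
    | succ r ih =>
      intro hr h
      apply ih (by omega)
      have hlt := hH r (by omega)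
      have hfin : Module.Finite (ZMod 2) (HH M (ZMod 2) r) :=
        Module.rank_lt_aleph0_iff.1 (hlt.trans (Cardinal.natCast_lt_aleph0))
      refine sol_pred hv0 hζ0 hc hπ hv r h (cH hc r).charpoly (LinearMap.aeval_self_charpoly _) ?_
      intro h0
      have h1 := minpoly.dvd (ZMod 2) (ζ⁻¹ ^ (r + 1)) h0
      have h2 := Polynomial.natDegree_le_of_dvd h1 (LinearMap.charpoly_monic _).ne_zero
      rw [LinearMap.charpoly_natDegree] at h2
      rw [← finrank_eq_rank, Nat.cast_lt] at hlt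
      omega
  exact not_sol_zero (key _ le_rfl hsol)

/-- The final topological statement. -/
theorem exists_fixed' {N t : ℕ} (hN : Odd N) (hN1 : 1 < N) (ht : 0 < t) (A : Act (Fin t × ZMod N) M)
    (hA : ∀ w, ContMDiff 𝓘(ℝ, E) 𝓘(ℝ, E) ∞ (A.toFun w)) {c : M → M} (hc : Continuous c)
    (hπ : ∀ a i x, c (A.toFun (Pi.single (a, i) 1) x) = A.toFun (Pi.single (a, i + 1) 1) (c x))
    (hH : ∀ j ≤ finrank ℝ E, Module.rank (ZMod 2) (HH M (ZMod 2) j) <
      orderOf (2 : ZMod (N / N.gcd (j + 1)))) :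
    ∃ (x : M) (Q : Submodule (ZMod 2) (Fin t × ZMod N → ZMod 2)),
      finrank (ZMod 2) Q = t * orderOf (2 : ZMod N) ∧ ∀ w ∈ Q, A.toFun w x = x := by
  have : NeZero N := ⟨by omega⟩
  obtain ⟨k, _, _, _, ζ, v, hζ, hv, hmin, Q, hQ, hQv⟩ := exists_arith N t hN ht
  obtain ⟨x, hx⟩ := exists_fixed A hA hc ((Equiv.refl (Fin t)).prodCongr (Equiv.addRight 1))
    (fun p x => hπ p.1 p.2 x) v ζ (hζ.ne_zero (by omega)) (by
      rintro rfl
      have := hζ.eq_orderOf
      rw [orderOf_one] at this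
      omega) (fun p => hv p.1 p.2) (fun j hj => by rw [hmin]; exact hH j hj)
  refine ⟨x, Q, hQ, fun w hw => ?_⟩
  obtain ⟨μ, rfl⟩ := hQv w hw
  exact hx μ

end manifold

end Pool.Agent.W15
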